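import Pool.Agent.Helper20.FD.Iter

/-!
# At a divisor which is not invariant and has a small discrepancy, the residues are algebraic
-/

set_option autoImplicit false

namespace Pool.Agent.Helper20.FD

open Pool.Agent.H436R3.Fol Pool.Agent.W497.Mld Pool.Agent.Helper81_gap MvPolynomial

variable {K : Type} [Field K] [Algebra ℂ K] {S : Subalgebra ℂ K} {v : DVal K}

theorem pos_pow_sub {v : DVal K} {x y : K} (hx : v.Reg x) (hy : v.Reg y) (h : v.Pos (x - y))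
    (n : ℕ) : v.Pos (x ^ n - y ^ n) := by
  obtain ⟨q, hq⟩ := sub_dvd_pow_sub_pow (⟨x, hx⟩ : OA v) ⟨y, hy⟩ n
  have h1 : x ^ n - y ^ n = (x - y) * (q : K) := congrArg Subtype.val hq
  rw [h1]
  exact pos_mul_right h q.2

/-- A rational function without poles along the divisors through the centre of `v`. -/
theorem exists_den (hfg : S.FG)
    (hfrac : ∀ f : K, ∃ a b : K, a ∈ S ∧ b ∈ S ∧ b ≠ 0 ∧ f * b = a)
    (hn : ∀ f : K, IsIntegral S f → f ∈ S) (hv : ∀ f ∈ S, v.Reg f) {h : K}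
    (hh : ∀ w, IsLocalRing' S w → (∀ s ∈ S, w.Pos s → v.Pos s) → w.Reg h) :
    ∃ s ∈ S, s ≠ 0 ∧ v.ord s = 0 ∧ s * h ∈ S := by
  obtain ⟨s, hs, hsh⟩ := Pool.Agent.TH670.C8_HARTP.hartogs_local hfg hfrac hn
    (Pool.Agent.TH126.C8_OVER.centre S v hv) (Pool.Agent.TH126.C8_OVER.centre_prime S v hv)
    (F := h) fun w hw hwP => hh w hw fun s hs h1 => hwP ⟨s, hs⟩ h1
  obtain ⟨h1, h2⟩ := ord_of_reg_not_pos (hv _ s.2) hs
  exact ⟨s, s.2, h1, h2, hsh⟩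

theorem reg_of_den (hv : ∀ f ∈ S, v.Reg f) {s h : K} (hs0 : s ≠ 0) (hs : v.ord s = 0)
    (hsh : s * h ∈ S) : v.Reg h := by
  by_cases h0 : h = 0
  · exact Or.inl h0
  have h4 := v.ord_nonneg (mul_ne_zero hs0 h0) (hv _ hsh)
  rw [v.map_mul _ _ hs0 h0, hs, zero_add] at h4
  exact Or.inr h4

/-- The functions with the same order have proportional leading terms, up to residues of functions
in `S`. -/
theorem exists_lead (hfg : S.FG)
    (hfrac : ∀ f : K, ∃ a b : K, a ∈ S ∧ b ∈ S ∧ b ≠ 0 ∧ f * b = a)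
    (hn : ∀ f : K, IsIntegral S f → f ∈ S) (hv : ∀ f ∈ S, v.Reg f)
    {D : Derivation ℂ K K} {g α t : K} {N : ℕ} {a : ℤ} (hg : g ≠ 0) (hN : 0 < N)
    (hu : ∀ w, IsLocalRing' S w → (∀ s ∈ S, w.Pos s → v.Pos s) →
      ∃ β, β ≠ 0 ∧ (∀ h, w.Reg h → w.Reg (β * D h)) ∧ w.ord g = N * w.ord β)
    (hα : α ≠ 0) (hαa : v.ord α = a) (hD : ∀ h, v.Reg h → v.Reg (α * D h))
    (ht : t ≠ 0) (ht1 : v.ord t = 1) (hDt : D t ≠ 0) (hDt' : v.ord (α * D t) = 0)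
    (hk : 0 < (a : ℚ) + 1 - v.ord g / N) (n : ℕ) :
    ∃ (μ : K) (c : ℂ), μ ≠ 0 ∧ c ≠ 0 ∧ ∀ f ∈ S, f ≠ 0 → v.ord f = n →
      ∃ h s, s ∈ S ∧ s ≠ 0 ∧ v.ord s = 0 ∧ s * h ∈ S ∧ h ≠ 0 ∧ v.ord h = 0 ∧
        v.Pos (h / (f ^ N * μ) - algebraMap ℂ K c) := by
  classical
  have hex : ∃ k : ℕ, rho n a (v.ord g) N k ≤ 0 := by
    obtain ⟨k, hk'⟩ := exists_nat_ge ((n : ℚ) / ((a : ℚ) + 1 - v.ord g / N))
    refine ⟨k, ?_⟩
    rw [div_le_iff₀ hk] at hk'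
    rw [rho]
    push_cast
    linarith
  set k := Nat.find hex with hkdef
  have hk0 : rho n a (v.ord g) N k ≤ 0 := Nat.find_spec hex
  have hkl : ∀ l < k, 0 < rho n a (v.ord g) N l := fun l hl => not_le.1 (Nat.find_min hex hl)
  have hlam0 : D t / t ≠ 0 := div_ne_zero hDt ht
  have hlam1 : v.ord (D t / t) = -a - 1 := by
    rw [v.ord_div hDt ht, ht1]
    rw [v.map_mul _ _ hα hDt, hαa] at hDt'
    omega
  set c : ℂ := ∏ l ∈ Finset.range k, (rho n a (v.ord g) N l : ℂ) with hc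
  have hc0 : c ≠ 0 := by
    rw [hc, Finset.prod_ne_zero_iff]
    intro l hl
    have h1 := hkl l (Finset.mem_range.1 hl)
    exact_mod_cast h1.ne'
  refine ⟨((D t / t) ^ k) ^ N * (g ^ k)⁻¹⁻¹, c ^ N,
    mul_ne_zero (pow_ne_zero _ (pow_ne_zero _ hlam0)) (inv_ne_zero (inv_ne_zero
      (pow_ne_zero _ hg))), pow_ne_zero _ hc0, fun f hf hf0 hfn => ?_⟩
  rw [inv_inv]
  have hlead := lead_seqE hα hαa hD hg hN ht ht1 hDt hDt' hf0 k (fun l hl => by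
    rw [hfn]
    exact (hkl l hl).ne')
  rw [hfn, ← hc] at hlead
  set e := seqE D g N f k / (f * (D t / t) ^ k) with he
  obtain ⟨he0, he1⟩ := unit_of_pos_sub hc0 hlead
  have hlk : (D t / t) ^ k ≠ 0 := pow_ne_zero _ hlam0
  have hE : seqE D g N f k = e * (f * (D t / t) ^ k) := by
    rw [he]
    field_simp
  have hE0 : seqE D g N f k ≠ 0 := by
    rw [hE]
    exact mul_ne_zero he0 (mul_ne_zero hf0 hlk)
  have hE1 : v.ord (seqE D g N f k) = n + k * (-a - 1) := by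
    rw [hE, v.map_mul _ _ he0 (mul_ne_zero hf0 hlk), v.map_mul _ _ hf0 hlk, v.ord_pow hlam0,
      hlam1, he1, zero_add, hfn]
  set h := seqE D g N f k ^ N * g ^ k with hh
  have hh0 : h ≠ 0 := mul_ne_zero (pow_ne_zero _ hE0) (pow_ne_zero _ hg)
  obtain ⟨s, hs, hs0, hs1, hsh⟩ := exists_den hfg hfrac hn hv (h := h) fun w hw hwP => by
    obtain ⟨β, hβ0, hβ, hβg⟩ := hu w hw hwP
    exact reg_seqE_pow hβ0 hβ hg hN hβg (hw.1 f hf) k
  have hreg := reg_of_den hv hs0 hs1 hsh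
  have hord : v.ord h = 0 := by
    have h1 : v.ord h = N * (n + k * (-a - 1)) + k * v.ord g := by
      rw [hh, v.map_mul _ _ (pow_ne_zero _ hE0) (pow_ne_zero _ hg), v.ord_pow hE0, v.ord_pow hg,
        hE1]
    have h2 : (v.ord h : ℚ) = N * rho n a (v.ord g) N k := by
      have hN' : (N : ℚ) ≠ 0 := by exact_mod_cast hN.ne'
      rw [h1, rho]
      push_cast
      field_simp
      ring
    have h3 : (0 : ℚ) ≤ v.ord h := by exact_mod_cast v.ord_nonneg hh0 hreg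
    have h4 : (v.ord h : ℚ) ≤ 0 := by
      rw [h2]
      exact mul_nonpos_of_nonneg_of_nonpos (Nat.cast_nonneg _) hk0
    exact_mod_cast le_antisymm h4 h3
  refine ⟨h, s, hs, hs0, hs1, hsh, hh0, hord, ?_⟩
  have h5 : h / (f ^ N * (((D t / t) ^ k) ^ N * g ^ k)) = e ^ N := by
    have hgk : g ^ k ≠ 0 := pow_ne_zero _ hg
    have hfN : f ^ N ≠ 0 := pow_ne_zero _ hf0
    have hXN : ((D t / t) ^ k) ^ N ≠ 0 := pow_ne_zero _ hlk
    rw [hh, hE, mul_pow, mul_pow]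
    generalize ((D t / t) ^ k) ^ N = X at hXN ⊢
    field_simp
  rw [h5, map_pow]
  exact pos_pow_sub (Or.inr he1.ge) (v.reg_const _) hlead N

/-- All residues are algebraic over the ones of the functions in `S`. -/
theorem residues_alg (hfg : S.FG)
    (hfrac : ∀ f : K, ∃ a b : K, a ∈ S ∧ b ∈ S ∧ b ≠ 0 ∧ f * b = a)
    (hn : ∀ f : K, IsIntegral S f → f ∈ S) (hv : ∀ f ∈ S, v.Reg f)
    {D : Derivation ℂ K K} {g α t : K} {N : ℕ} {a : ℤ} (hg : g ≠ 0) (hN : 0 < N)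
    (hu : ∀ w, IsLocalRing' S w → (∀ s ∈ S, w.Pos s → v.Pos s) →
      ∃ β, β ≠ 0 ∧ (∀ h, w.Reg h → w.Reg (β * D h)) ∧ w.ord g = N * w.ord β)
    (hα : α ≠ 0) (hαa : v.ord α = a) (hD : ∀ h, v.Reg h → v.Reg (α * D h))
    (ht : t ≠ 0) (ht1 : v.ord t = 1) (hDt : D t ≠ 0) (hDt' : v.ord (α * D t) = 0)
    (hk : 0 < (a : ℚ) + 1 - v.ord g / N) (y : OA v) :
    IsAlgebraic (Algebra.adjoin ℂ (rs v '' {x : OA v | (x : K) ∈ S})) (rs v y) := by
  classical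
  set R := Algebra.adjoin ℂ (rs v '' {x : OA v | (x : K) ∈ S}) with hR
  have hmem : ∀ x : OA v, (x : K) ∈ S → rs v x ∈ R := fun x hx =>
    Algebra.subset_adjoin ⟨x, hx, rfl⟩
  by_cases hy : v.Pos (y : K)
  · rw [rs_eq_zero.2 hy]
    exact isAlgebraic_zero
  obtain ⟨hy0, hy1⟩ := ord_of_reg_not_pos y.2 hy
  obtain ⟨f, f', hf, hf', hf'0, hff'⟩ := hfrac (y : K)
  have hf0 : f ≠ 0 := by rw [← hff']; exact mul_ne_zero hy0 hf'0
  have hff : v.ord f = v.ord f' := by rw [← hff', v.map_mul _ _ hy0 hf'0, hy1, zero_add]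
  obtain ⟨n, hn'⟩ := Int.eq_ofNat_of_zero_le (v.ord_nonneg hf'0 (hv _ hf'))
  obtain ⟨μ, c, hμ, hc, hμc⟩ := exists_lead hfg hfrac hn hv hg hN hu hα hαa hD ht ht1 hDt hDt' hk n
  obtain ⟨h, s, hs, hs0, hs1, hsh, hh0, hh1, hh2⟩ := hμc f hf hf0 (hff.trans hn')
  obtain ⟨h', s', hs', hs0', hs1', hsh', hh0', hh1', hh2'⟩ := hμc f' hf' hf'0 hn'
  obtain ⟨he0, he1⟩ := unit_of_pos_sub hc hh2
  have hM0 : f ^ N * μ ≠ 0 := mul_ne_zero (pow_ne_zero _ hf0) hμ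
  have hM0' : f' ^ N * μ ≠ 0 := mul_ne_zero (pow_ne_zero _ hf'0) hμ
  have hM1 : v.ord (f ^ N * μ) = 0 := by
    rw [v.ord_div hh0 hM0, hh1] at he1
    omega
  have hkey : v.Pos ((y : K) ^ N * h' - h) := by
    have h1 : (y : K) ^ N * h' - h = (f ^ N * μ) * ((h' / (f' ^ N * μ) - algebraMap ℂ K c) +
        -1 * (h / (f ^ N * μ) - algebraMap ℂ K c)) := by
      have h2 : (y : K) ^ N * h' = (f ^ N * μ) * (h' / (f' ^ N * μ)) := by
        rw [← hff', mul_pow]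
        field_simp
      rw [h2]
      field_simp
      ring
    rw [h1]
    refine v.pos_mul_left (Or.inr hM1.ge) (v.pos_add hh2' (v.pos_mul_left ?_ hh2))
    exact v.reg_neg v.reg_one
  have hA : s' * h' * s ∈ S := S.mul_mem hsh' hs
  have hB : s * h * s' ∈ S := S.mul_mem hsh hs'
  let A : OA v := ⟨s' * h' * s, hv _ hA⟩
  let B : OA v := ⟨s * h * s', hv _ hB⟩
  have hrel : rs v y ^ N * rs v A = rs v B := by
    rw [← map_pow, ← map_mul, rs_eq]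
    have h1 : ((y ^ N * A : OA v) : K) - (B : K) = (s * s') * ((y : K) ^ N * h' - h) := by
      change (y : K) ^ N * (s' * h' * s) - s * h * s' = _
      ring
    rw [h1]
    exact v.pos_mul_left (v.reg_mul (hv _ hs) (hv _ hs')) hkey
  have hA0 : rs v A ≠ 0 := by
    intro h0
    rw [rs_eq_zero] at h0
    refine not_pos_of_ord (mul_ne_zero (mul_ne_zero hs0' hh0') hs0) ?_ h0
    rw [v.map_mul _ _ (mul_ne_zero hs0' hh0') hs0, v.map_mul _ _ hs0' hh0', hs1', hh1', hs1]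
    rfl
  refine ⟨Polynomial.C (⟨rs v A, hmem A hA⟩ : R) * Polynomial.X ^ N -
    Polynomial.C ⟨rs v B, hmem B hB⟩, ?_, ?_⟩
  · intro h0
    have h1 := congrArg (fun p => Polynomial.coeff p N) h0
    simp only [Polynomial.coeff_sub, Polynomial.coeff_C_mul, Polynomial.coeff_X_pow_self,
      mul_one, Polynomial.coeff_zero, Polynomial.coeff_C, hN.ne', if_false, sub_zero] at h1
    exact hA0 (congrArg Subtype.val h1)
  · rw [map_sub, map_mul, map_pow, Polynomial.aeval_X, Polynomial.aeval_C, Polynomial.aeval_C]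
    change rs v A * rs v y ^ N - rs v B = 0
    rw [mul_comm, hrel, sub_self]

/-- A divisor over `X` which is not invariant and whose log discrepancy is positive is a divisor
on `X`. -/
theorem on_of_frame (hfg : S.FG)
    (hfrac : ∀ f : K, ∃ a b : K, a ∈ S ∧ b ∈ S ∧ b ≠ 0 ∧ f * b = a)
    (hn : ∀ f : K, IsIntegral S f → f ∈ S) (hv : ∀ f ∈ S, v.Reg f)
    {D : Derivation ℂ K K} {g α t : K} {N : ℕ} {a : ℤ} (hg : g ≠ 0) (hN : 0 < N)
    (hu : ∀ w, IsLocalRing' S w → (∀ s ∈ S, w.Pos s → v.Pos s) →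
      ∃ β, β ≠ 0 ∧ (∀ h, w.Reg h → w.Reg (β * D h)) ∧ w.ord g = N * w.ord β)
    (hα : α ≠ 0) (hαa : v.ord α = a) (hD : ∀ h, v.Reg h → v.Reg (α * D h))
    (ht : t ≠ 0) (ht1 : v.ord t = 1) (hDt : D t ≠ 0) (hDt' : v.ord (α * D t) = 0)
    (hk : 0 < (a : ℚ) + 1 - v.ord g / N) {m : ℕ}
    (htr : Algebra.trdeg ℂ K = ((m + 1 : ℕ) : Cardinal)) (u : Fin m → K)
    (hur : ∀ i, v.Reg (u i)) (hres : ∀ q : MvPolynomial (Fin m) ℂ, v.Pos (aeval u q) → q = 0) :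
    IsLocalRing' S v := by
  obtain ⟨z, hz, hz'⟩ := exists_indep_of_alg (S := S) u hur hres
    (residues_alg hfg hfrac hn hv hg hN hu hα hαa hD ht ht1 hDt hDt' hk)
  exact divisor_of_indep hfg hfrac hn htr hv z hz hz'

end Pool.Agent.Helper20.FD
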