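import Pool.Agent.Helper20.FD.Res

/-!
# Frames of a foliation at a prime divisor
-/

set_option autoImplicit false

namespace Pool.Agent.Helper20.FD

open Pool.Agent.H436R3.Fol Pool.Agent.W497.Mld Pool.Agent.Helper81_gap

/-! ### Linear algebra -/

theorem exists_basis_in {κ : Type} [Field κ] {r : ℕ} {T s : Set (Fin r → κ)}
    (hT : Submodule.span κ T = ⊤) (hs : LinearIndepOn κ id s) (hsT : s ⊆ T) :
    ∃ w : Fin r → Fin r → κ, (∀ j, w j ∈ T) ∧ LinearIndependent κ w ∧ s ⊆ Set.range w := by
  obtain ⟨b, hbT, hsb, hTb, hb⟩ := exists_linearIndepOn_id_extension hs hsT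
  have hspan : ⊤ ≤ Submodule.span κ (Set.range ((↑) : b → Fin r → κ)) := by
    rw [Subtype.range_coe, ← hT]
    exact Submodule.span_le.2 hTb
  let B : Module.Basis b κ (Fin r → κ) := Module.Basis.mk hb hspan
  have hfin : Finite b := Module.Finite.finite_basis B
  have := Fintype.ofFinite b
  have hcard : Fintype.card b = r := by
    rw [← Module.finrank_eq_card_basis B, Module.finrank_fin_fun]
  let e : Fin r ≃ b := (Fintype.equivFinOfCardEq hcard).symm
  refine ⟨fun j => (e j : Fin r → κ), fun j => hbT (e j).2, ?_, ?_⟩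
  · exact (show LinearIndependent κ ((↑) : b → Fin r → κ) from hb).comp e e.injective
  · intro x hx
    exact ⟨e.symm ⟨x, hsb hx⟩, by simp⟩

theorem det_ne_zero_of_li {κ : Type} [Field κ] {r : ℕ} {w : Fin r → Fin r → κ}
    (hw : LinearIndependent κ w) : (Matrix.of fun i j => w j i).det ≠ 0 := by
  have h1 : IsUnit (Matrix.of w) := Matrix.linearIndependent_rows_iff_isUnit.1 hw
  have h2 := (Matrix.isUnit_iff_isUnit_det _).1 h1
  have h3 : (Matrix.of fun i j => w j i) = (Matrix.of w).transpose := rfl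
  rw [h3, Matrix.det_transpose]
  exact h2.ne_zero

/-! ### Rows -/

variable {K : Type} [Field K] [Algebra ℂ K] {v : DVal K} {r : ℕ}

/-- The `i`-th vector field of the frame given by the matrix `A`. -/
noncomputable def row (F : Foliation K r) (A : Matrix (Fin r) (Fin r) K) (i : Fin r) :
    Derivation ℂ K K := ∑ j, A i j • F.D j

theorem row_apply (F : Foliation K r) (A : Matrix (Fin r) (Fin r) K) (i : Fin r) (f : K) :
    row F A i f = ∑ j, A i j * F.D j f := by
  rw [row, der_sum_apply]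

theorem comb_apply (c : Fin r → K) (D : Fin r → Derivation ℂ K K) (f : K) :
    (∑ i, c i • D i) f = ∑ i, c i * D i f := by
  rw [der_sum_apply]

theorem sum_row (F : Foliation K r) (A : Matrix (Fin r) (Fin r) K) (c : Fin r → K) :
    ∑ i, c i • row F A i = ∑ j, (∑ i, c i • A i) j • F.D j := by
  simp only [row, Finset.smul_sum, smul_smul]
  rw [Finset.sum_comm]
  refine Finset.sum_congr rfl fun j _ => ?_
  rw [← Finset.sum_smul]
  congr 1
  simp [Finset.sum_apply]

theorem smul_sum_row (F : Foliation K r) (A : Matrix (Fin r) (Fin r) K) (t : K) (c : Fin r → K) :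
    ∑ j, (t • ∑ k, c k • A k) j • F.D j = t • ∑ k, c k • row F A k := by
  rw [sum_row]
  conv_rhs => rw [Finset.smul_sum]
  apply Finset.sum_congr rfl
  intro j _
  rw [smul_smul, Pi.smul_apply, smul_eq_mul]

variable {F : Foliation K r} {a : ℤ} {A : Matrix (Fin r) (Fin r) K}

/-- A combination of the frame which maps the valuation ring to its ideal has its coefficients in
the ideal. -/
theorem comb_pos (ha : IsCanOrd F v a) (hA0 : A.det ≠ 0) (hA : ∀ i, Preserves v (row F A i))
    (hAa : v.ord A.det = a) {c : Fin r → K} (hc : ∀ i, v.Reg (c i))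
    (h : ∀ f, v.Reg f → v.Pos (∑ i, c i * row F A i f)) (i : Fin r) : v.Pos (c i) := by
  by_contra hi
  obtain ⟨hi0, hi1⟩ := ord_of_reg_not_pos (hc i) hi
  obtain ⟨t, ht0, ht1⟩ := v.surj
  have hdet : (A.updateRow i (t⁻¹ • ∑ k, c k • A k)).det = t⁻¹ * (c i * A.det) := by
    rw [Matrix.det_updateRow_smul]
    congr 1
    have h3 := Matrix.det_updateRow_sum A i c
    rw [smul_eq_mul] at h3
    exact h3
  have h2 := ha.2 (show v.ord (A.updateRow i (t⁻¹ • ∑ k, c k • A k)).det ∈ _ from
    ⟨A.updateRow i (t⁻¹ • ∑ k, c k • A k), by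
      rw [hdet]
      exact mul_ne_zero (inv_ne_zero ht0) (mul_ne_zero hi0 hA0), fun l => by
      by_cases hl : l = i
      · subst hl
        rw [Matrix.updateRow_self]
        rw [smul_sum_row]
        intro f hf
        rw [Derivation.smul_apply, comb_apply, smul_eq_mul]
        rcases h f hf with h5 | h5
        · rw [h5, mul_zero]
          exact v.reg_zero
        · by_cases h6 : ∑ k, c k * row F A k f = 0
          · rw [h6, mul_zero]
            exact v.reg_zero
          · right
            rw [v.map_mul _ _ (inv_ne_zero ht0) h6, v.ord_inv ht0, ht1]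
            omega
      · rw [Matrix.updateRow_ne hl]
        exact hA l, rfl⟩)
  rw [hdet, v.map_mul _ _ (inv_ne_zero ht0) (mul_ne_zero hi0 hA0), v.map_mul _ _ hi0 hA0,
    v.ord_inv ht0, ht1, hi1, hAa] at h2
  omega

/-- At a divisor which is not invariant, some vector field of the frame does not preserve the
ideal. -/
theorem exists_row_not_pos (ha : IsCanOrd F v a) (hA0 : A.det ≠ 0)
    (hA : ∀ i, Preserves v (row F A i)) (hAa : v.ord A.det = a) (hI : ¬ IsInvariant F v) :
    ∃ i f, v.Pos f ∧ ¬ v.Pos (row F A i f) := by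
  unfold Pool.Agent.H436R3.Fol.IsInvariant at hI
  push Not at hI
  obtain ⟨D, hD, hDp, f, hf, hDf⟩ := hI
  obtain ⟨c, hc⟩ := (Submodule.mem_span_range_iff_exists_fun K).1 hD
  set b : Fin r → K := Matrix.vecMul c A⁻¹ with hb
  have hu : IsUnit A.det := isUnit_iff_ne_zero.2 hA0
  have hbA : Matrix.vecMul b A = c := by
    rw [hb, Matrix.vecMul_vecMul, Matrix.nonsing_inv_mul _ hu, Matrix.vecMul_one]
  have h2 : c = ∑ l, b l • A l := by
    rw [← hbA]
    ext j
    simp [Matrix.vecMul, dotProduct, Finset.sum_apply]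
  have hDs : D = ∑ i, b i • row F A i := by
    rw [← hc, sum_row, h2]
  have hreg : ∀ i, v.Reg (b i) := by
    intro i
    by_contra hi
    have hi0 : b i ≠ 0 := fun h => hi (Or.inl h)
    have hi1 : v.ord (b i) < 0 := by
      by_contra h
      exact hi (Or.inr (not_lt.1 h))
    have hdet : (A.updateRow i c).det = b i * A.det := by
      rw [h2]
      have h3 := Matrix.det_updateRow_sum A i b
      rw [smul_eq_mul] at h3
      exact h3
    have h4 := ha.2 (show v.ord (A.updateRow i c).det ∈ _ from ⟨A.updateRow i c, by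
      rw [hdet]
      exact mul_ne_zero hi0 hA0, fun l => by
        by_cases hl : l = i
        · subst hl
          rw [Matrix.updateRow_self, hc]
          exact hDp
        · rw [Matrix.updateRow_ne hl]
          exact hA l, rfl⟩)
    rw [hdet, v.map_mul _ _ hi0 hA0] at h4
    omega
  by_contra hcon
  push Not at hcon
  apply hDf
  rw [hDs, comb_apply]
  exact pos_sum' _ _ fun i _ => v.pos_mul_left (hreg i) (hcon i f hf)

section residue

variable {κ : Type} [Field κ] (ρ : OA v →+* κ)

/-- The residues of the derivatives of a regular function along the frame. -/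
noncomputable def tau (hA : ∀ i, Preserves v (row F A i)) (z : OA v) : Fin r → κ :=
  fun i => ρ ⟨row F A i z, hA i _ z.2⟩

variable {ρ}

theorem span_tau (hρ : Function.Surjective ρ) (hρ0 : ∀ s, ρ s = 0 ↔ v.Pos (s : K))
    (hA : ∀ i, Preserves v (row F A i)) {Z : Set (OA v)}
    (hZ : ∀ c : Fin r → K, (∀ i, v.Reg (c i)) →
      (∀ z ∈ Z, v.Pos (∑ i, c i * row F A i z)) → ∀ i, v.Pos (c i)) :
    Submodule.span κ (tau ρ hA '' Z) = ⊤ := by
  by_contra hne
  obtain ⟨φ, hφ0, hφ⟩ := Submodule.exists_le_ker_of_lt_top _ (lt_top_iff_ne_top.2 hne)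
  choose c hc using fun i : Fin r => hρ (φ (Pi.single i 1))
  have hsum : ∀ x : Fin r → κ, φ x = ∑ i, ρ (c i) * x i := by
    intro x
    rw [LinearMap.pi_apply_eq_sum_univ φ x]
    refine Finset.sum_congr rfl fun i _ => ?_
    rw [smul_eq_mul, mul_comm, hc]
    congr 2
    ext j
    simp [Pi.single_apply, eq_comm]
  have h1 := hZ (fun i => (c i : K)) (fun i => (c i).2) (fun z hz => by
    have h2 : φ (tau ρ hA z) = 0 := LinearMap.mem_ker.1 (hφ (Submodule.subset_span ⟨z, hz, rfl⟩))
    rw [hsum] at h2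
    have h3 : ρ (∑ i, c i * ⟨row F A i z, hA i _ z.2⟩) = 0 := by
      rw [map_sum, ← h2]
      refine Finset.sum_congr rfl fun i _ => ?_
      rw [map_mul]
      rfl
    rw [hρ0] at h3
    have h4 : ((∑ i, c i * ⟨row F A i z, hA i _ z.2⟩ : OA v) : K) =
        ∑ i, (c i : K) * row F A i z := by
      rw [AddSubmonoidClass.coe_finsetSum]
      rfl
    rwa [h4] at h3)
  apply hφ0
  have h2 : ∀ x, φ x = 0 := by
    intro x
    rw [hsum]
    refine Finset.sum_eq_zero fun i _ => ?_
    rw [(hρ0 _).2 (h1 i), zero_mul]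
  exact LinearMap.ext h2

theorem det_unit_of_li (hρ0 : ∀ s, ρ s = 0 ↔ v.Pos (s : K))
    (hA : ∀ i, Preserves v (row F A i)) {z : Fin r → OA v}
    (h : LinearIndependent κ fun j => tau ρ hA (z j)) :
    (Matrix.of fun i j => row F A i (z j : K)).det ≠ 0 ∧
      v.ord (Matrix.of fun i j => row F A i (z j : K)).det = 0 := by
  have h1 := det_ne_zero_of_li h
  let M : Matrix (Fin r) (Fin r) (OA v) := Matrix.of fun i j => ⟨row F A i (z j), hA i _ (z j).2⟩
  have h2 : (Matrix.of fun i j => tau ρ hA (z j) i) = ρ.mapMatrix M := rfl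
  rw [h2, ← RingHom.map_det] at h1
  let ψ : OA v →+* K := (OA v).val.toRingHom
  have h3 : (Matrix.of fun i j => row F A i (z j : K)) = ψ.mapMatrix M := rfl
  rw [h3, ← RingHom.map_det]
  exact ord_of_reg_not_pos M.det.2 fun h => h1 ((hρ0 _).2 h)

end residue

/-- A frame of functions at an invariant divisor. -/
theorem exists_frame (hA : ∀ i, Preserves v (row F A i)) {Z : Set K} (hZr : ∀ z ∈ Z, v.Reg z)
    (hZ : ∀ c : Fin r → K, (∀ i, v.Reg (c i)) →
      (∀ z ∈ Z, v.Pos (∑ i, c i * row F A i z)) → ∀ i, v.Pos (c i)) :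
    ∃ z : Fin r → K, (∀ j, z j ∈ Z) ∧ (Matrix.of fun i j => row F A i (z j)).det ≠ 0 ∧
      v.ord (Matrix.of fun i j => row F A i (z j)).det = 0 := by
  obtain ⟨κ, hκ, ρ, hρ, hρ0⟩ : ∃ (κ : Type) (_ : Field κ) (ρ : OA v →+* κ),
      Function.Surjective ρ ∧ ∀ s, ρ s = 0 ↔ v.Pos (s : K) :=
    ⟨Kap v, inferInstance, (rs v : OA v →+* Kap v), rs_surj, fun s => rs_eq_zero⟩
  have h1 := span_tau (Z := {z : OA v | (z : K) ∈ Z}) hρ hρ0 hA fun c hc h =>
    hZ c hc fun z hz => h ⟨z, hZr z hz⟩ hz
  obtain ⟨w, hw, hli, _⟩ := exists_basis_in (s := ∅) h1 (linearIndepOn_empty _ _)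
    (Set.empty_subset _)
  choose z hz hzw using hw
  have h2 : LinearIndependent κ fun j => tau ρ hA (z j) := by
    have : (fun j => tau ρ hA (z j)) = w := funext hzw
    rw [this]
    exact hli
  obtain ⟨h3, h4⟩ := det_unit_of_li hρ0 hA h2
  exact ⟨fun j => z j, hz, h3, h4⟩

/-- A frame of functions at a divisor which is not invariant: one of them is a given function `t`
whose derivatives along the frame do not all vanish on the divisor. -/
theorem exists_frame' (hA : ∀ i, Preserves v (row F A i)) {Z : Set K} (hZr : ∀ z ∈ Z, v.Reg z)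
    {t : K} (ht : v.Reg t) (ht' : ∃ i, ¬ v.Pos (row F A i t))
    (hZ : ∀ c : Fin r → K, (∀ i, v.Reg (c i)) → v.Pos (∑ i, c i * row F A i t) →
      (∀ z ∈ Z, v.Pos (∑ i, c i * row F A i z)) → ∀ i, v.Pos (c i)) :
    ∃ (z : Fin r → K) (i₁ : Fin r), z i₁ = t ∧ (∀ j, j ≠ i₁ → z j ∈ Z) ∧
      (Matrix.of fun i j => row F A i (z j)).det ≠ 0 ∧
      v.ord (Matrix.of fun i j => row F A i (z j)).det = 0 := by
  classical
  obtain ⟨κ, hκ, ρ, hρ, hρ0⟩ : ∃ (κ : Type) (_ : Field κ) (ρ : OA v →+* κ),
      Function.Surjective ρ ∧ ∀ s, ρ s = 0 ↔ v.Pos (s : K) :=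
    ⟨Kap v, inferInstance, (rs v : OA v →+* Kap v), rs_surj, fun s => rs_eq_zero⟩
  let t' : OA v := ⟨t, ht⟩
  have h1 := span_tau (Z := insert t' {z : OA v | (z : K) ∈ Z}) hρ hρ0 hA fun c hc h =>
    hZ c hc (h t' (Set.mem_insert _ _)) fun z hz => h ⟨z, hZr z hz⟩ (Set.mem_insert_of_mem _ hz)
  have hne : tau ρ hA t' ≠ 0 := by
    obtain ⟨i, hi⟩ := ht'
    intro h0
    exact hi ((hρ0 _).1 (congrFun h0 i))
  obtain ⟨w, hw, hli, hs⟩ := exists_basis_in (s := {tau ρ hA t'}) h1
    (LinearIndepOn.singleton (v := id) (i := tau ρ hA t') hne)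
    (Set.singleton_subset_iff.2 ⟨t', Set.mem_insert _ _, rfl⟩)
  obtain ⟨i₁, hi₁⟩ := hs (Set.mem_singleton _)
  choose z hz hzw using hw
  have hz' : ∀ j, j ≠ i₁ → (z j : K) ∈ Z := by
    intro j hj
    rcases hz j with h2 | h2
    · exfalso
      apply hj
      apply hli.injective
      rw [hi₁, ← hzw j, h2]
    · exact h2
  let z' : Fin r → OA v := Function.update z i₁ t'
  have h2 : LinearIndependent κ fun j => tau ρ hA (z' j) := by
    have : (fun j => tau ρ hA (z' j)) = w := by
      funext j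
      by_cases hj : j = i₁
      · subst hj
        change tau ρ hA (Function.update z j t' j) = _
        rw [Function.update_self, hi₁]
      · change tau ρ hA (Function.update z i₁ t' j) = _
        rw [Function.update_of_ne hj, hzw]
    rw [this]
    exact hli
  obtain ⟨h3, h4⟩ := det_unit_of_li hρ0 hA h2
  refine ⟨fun j => z' j, i₁, ?_, fun j hj => ?_, h3, h4⟩
  · change ((Function.update z i₁ t' i₁ : OA v) : K) = t
    rw [Function.update_self]
  · change ((Function.update z i₁ t' j : OA v) : K) ∈ Z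
    rw [Function.update_of_ne hj]
    exact hz' j hj

end Pool.Agent.Helper20.FD
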