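import Pool.Agent.Helper20.FD.Alg
import Pool.Agent.Helper20.FD.Frame

/-!
# The core estimate
-/

set_option autoImplicit false

namespace Pool.Agent.Helper20.FD

open Pool.Agent.H436R3.Fol Pool.Agent.W497.Mld Pool.Agent.Helper81_gap MvPolynomial

variable {K : Type} [Field K] [Algebra ℂ K]

theorem exists_dim {S : Subalgebra ℂ K} (hfg : S.FG)
    (hfrac : ∀ f : K, ∃ a b : K, a ∈ S ∧ b ∈ S ∧ b ≠ 0 ∧ f * b = a) (v : DVal K) :
    ∃ m : ℕ, Algebra.trdeg ℂ K = ((m + 1 : ℕ) : Cardinal) := by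
  have hft : Algebra.FiniteType ℂ S := (Subalgebra.fg_iff_finiteType _).1 hfg
  have h1 : Algebra.trdeg ℂ S < Cardinal.aleph0 := _root_.trdeg_lt_aleph0_of_finiteType
  have hfr : IsFractionRing S K := fractionRing_of hfrac
  have h4 : Algebra.trdeg ℂ S + Algebra.trdeg S K = Algebra.trdeg ℂ K :=
    _root_.trdeg_add_eq ℂ S
  have h5 : Algebra.trdeg S K = 0 := by
    rw [_root_.trdeg_eq_zero_iff]
    exact IsLocalization.isAlgebraic (S := K) (nonZeroDivisors S)
  rw [h5, add_zero] at h4
  rw [h4] at h1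
  obtain ⟨n, hn⟩ := Cardinal.lt_aleph0.1 h1
  rcases n with _ | m
  · exfalso
    rw [Nat.cast_zero, _root_.trdeg_eq_zero_iff] at hn
    obtain ⟨π, hπ, hπ1⟩ := v.surj
    obtain ⟨c, hc⟩ := IsAlgClosed.algebraMap_bijective_of_isIntegral (k := ℂ) (K := K) |>.2 π
    have hc0 : c ≠ 0 := by
      rintro rfl
      rw [map_zero] at hc
      exact hπ hc.symm
    have := v.const c hc0
    rw [hc, hπ1] at this
    exact one_ne_zero this
  · exact ⟨m, hn⟩

theorem reg_det {v : DVal K} {r : ℕ} {M : Matrix (Fin r) (Fin r) K}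
    (h : ∀ i j, v.Reg (M i j)) : v.Reg M.det := by
  let M' : Matrix (Fin r) (Fin r) (OA v) := Matrix.of fun i j => ⟨M i j, h i j⟩
  let ψ : OA v →+* K := (OA v).val.toRingHom
  have h3 : M = ψ.mapMatrix M' := rfl
  rw [h3, ← RingHom.map_det]
  exact M'.det.2

variable {r : ℕ}

theorem det_row (F : Foliation K r) (A : Matrix (Fin r) (Fin r) K) (z : Fin r → K) :
    A.det * (Matrix.of fun i j => F.D i (z j)).det = (Matrix.of fun i j => row F A i (z j)).det := by
  rw [← Matrix.det_mul]
  congr 1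
  ext i j
  rw [Matrix.mul_apply, Matrix.of_apply, row_apply]
  rfl

/-- The vector field `f ↦ det (D_i z_j)`, where `z_{i₁}` is replaced by `f`. -/
noncomputable def detD (F : Foliation K r) (z : Fin r → K) (i₁ : Fin r) : Derivation ℂ K K :=
  ∑ i, (Matrix.cramer (Matrix.of fun i j => F.D i (z j)) (Pi.single i 1) i₁) • F.D i

theorem detD_apply (F : Foliation K r) (z : Fin r → K) (i₁ : Fin r) (h : K) :
    detD F z i₁ h = (Matrix.of fun i j => F.D i (Function.update z i₁ h j)).det := by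
  classical
  rw [detD, der_sum_apply]
  set M : Matrix (Fin r) (Fin r) K := Matrix.of fun i j => F.D i (z j) with hM
  have h1 : (Matrix.of fun i j => F.D i (Function.update z i₁ h j)) =
      M.updateCol i₁ fun i => F.D i h := by
    ext i j
    by_cases hj : j = i₁
    · subst hj
      simp
    · simp [hj, hM]
  rw [h1, ← Matrix.cramer_apply]
  have h2 : (fun i => F.D i h) = ∑ i, F.D i h • (Pi.single i (1 : K) : Fin r → K) := by
    ext j
    simp [Finset.sum_apply, Pi.single_apply]
  rw [h2, map_sum, Finset.sum_apply]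
  refine Finset.sum_congr rfl fun i _ => ?_
  rw [map_smul, Pi.smul_apply, smul_eq_mul, mul_comm]

theorem det_detD (F : Foliation K r) (A : Matrix (Fin r) (Fin r) K) (z : Fin r → K) (i₁ : Fin r)
    (h : K) : A.det * detD F z i₁ h =
      (Matrix.of fun i j => row F A i (Function.update z i₁ h j)).det := by
  rw [detD_apply, det_row]

theorem reg_det_detD {v : DVal K} {F : Foliation K r} {A : Matrix (Fin r) (Fin r) K}
    (hA : ∀ i, Preserves v (row F A i)) {z : Fin r → K} {i₁ : Fin r}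
    (hz : ∀ j, j ≠ i₁ → v.Reg (z j)) {h : K} (hh : v.Reg h) : v.Reg (A.det * detD F z i₁ h) := by
  rw [det_detD]
  refine reg_det fun i j => hA i _ ?_
  by_cases hj : j = i₁
  · subst hj
    rw [Function.update_self]
    exact hh
  · rw [Function.update_of_ne hj]
    exact hz j hj

/-- **The core estimate.** Let `v` be a divisor over `Spec S` which is not a divisor on it, and
such that `v` is a divisor on the normalisation of an affine variety with the ring `C` on which the
vector fields in `F` have no more poles or zeros than on `S`. If `N K_F = div (g)` along the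
divisors of `Spec S` through the centre of `v`, then the discrepancy is at most `- ε (v)`. -/
theorem core {S C : Subalgebra ℂ K} (hfg : S.FG)
    (hfrac : ∀ f : K, ∃ a b : K, a ∈ S ∧ b ∈ S ∧ b ≠ 0 ∧ f * b = a)
    (hn : ∀ f : K, IsIntegral S f → f ∈ S) {v : DVal K} (hnot : ¬ IsLocalRing' S v)
    {F : Foliation K r} {g : K} {N : ℕ} (hg : g ≠ 0) (hN : 0 < N)
    (hloc : ∀ w, IsLocalRing' S w → (∀ s ∈ S, w.Pos s → v.Pos s) →
      ∃ b : ℤ, IsCanOrd F w b ∧ N * b = w.ord g)
    (hSC : S ≤ C) (hCr : ∀ c ∈ C, v.Reg c)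
    (hCfg : ((integralClosure C K).restrictScalars ℂ).FG)
    (hCv : IsLocalRing' ((integralClosure C K).restrictScalars ℂ) v)
    (hCD : ∀ D ∈ F.space, Preserves v D → (∀ s ∈ S, v.Pos (D s)) → ∀ c ∈ C, v.Pos (D c))
    {a : ℤ} (ha : IsCanOrd F v a) : (a : ℝ) - (v.ord g : ℝ) / N ≤ -(eps F v) := by
  classical
  have hv : ∀ f ∈ S, v.Reg f := fun f hf => hCr f (hSC hf)
  obtain ⟨A, hA0, hA', hAa⟩ := ha.1
  have hA : ∀ i, Preserves v (row F A i) := hA'
  have hrowmem : ∀ i, row F A i ∈ F.space := fun i =>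
    Submodule.sum_mem _ fun j _ => Submodule.smul_mem _ _ (Submodule.subset_span ⟨j, rfl⟩)
  have hcomb : ∀ c : Fin r → K, (∀ i, v.Reg (c i)) → Preserves v (∑ i, c i • row F A i) := by
    intro c hc f hf
    rw [comb_apply]
    exact reg_sum' _ _ fun i _ => v.reg_mul (hc i) (hA i f hf)
  have hcmem : ∀ c : Fin r → K, (∑ i, c i • row F A i) ∈ F.space := fun c =>
    Submodule.sum_mem _ fun i _ => Submodule.smul_mem _ _ (hrowmem i)
  -- the key property of the functions on `Spec S`
  have hkey : ∀ c : Fin r → K, (∀ i, v.Reg (c i)) →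
      (∀ f, v.Pos f → v.Pos ((∑ i, c i • row F A i) f)) →
      (∀ z ∈ S, v.Pos (∑ i, c i * row F A i z)) → ∀ i, v.Pos (c i) := by
    intro c hc hI hz
    have h1 := hCD _ (hcmem c) (hcomb c hc) fun s hs => by
      rw [comb_apply]
      exact hz s hs
    have h2 := fun f (hf : v.Reg f) => der_pos_of_alg (hcomb c hc) hI hCr h1 hCv hf
    refine comb_pos ha hA0 hA hAa hc fun f hf => ?_
    rw [← comb_apply]
    exact h2 f hf
  have hN' : (N : ℝ) ≠ 0 := by exact_mod_cast hN.ne'
  have hNp : (0 : ℝ) < N := by exact_mod_cast hN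
  by_cases hI : IsInvariant F v
  · rw [eps, if_pos hI, neg_zero]
    obtain ⟨z, hz, hz0, hz1⟩ := exists_frame (Z := (S : Set K)) hA hv fun c hc h =>
      hkey c hc (hI _ (hcmem c) (hcomb c hc)) h
    rw [← det_row] at hz0 hz1
    set δ := (Matrix.of fun i j => F.D i (z j)).det with hδ
    have hδ0 : δ ≠ 0 := right_ne_zero_of_mul hz0
    have hδ1 : v.ord δ = -a := by
      rw [v.map_mul _ _ hA0 hδ0, hAa] at hz1
      omega
    have hδN : δ ^ N ≠ 0 := pow_ne_zero _ hδ0
    obtain ⟨s, hs, hs0, hs1, hsh⟩ := exists_den hfg hfrac hn hv (h := δ ^ N * g) fun w hw hwP => by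
      obtain ⟨b, hb, hbg⟩ := hloc w hw hwP
      obtain ⟨B, hB0, hB', hBb⟩ := hb.1
      have hB : ∀ i, Preserves w (row F B i) := hB'
      have h1 : w.Reg (B.det * δ) := by
        rw [hδ, det_row]
        exact reg_det fun i j => hB i _ (hw.1 _ (hz j))
      have h2 := w.ord_nonneg (mul_ne_zero hB0 hδ0) h1
      rw [w.map_mul _ _ hB0 hδ0, hBb] at h2
      right
      rw [w.map_mul _ _ hδN hg, w.ord_pow hδ0, ← hbg, ← mul_add]
      exact mul_nonneg (Nat.cast_nonneg _) (by omega)
    have h3 := v.ord_nonneg (mul_ne_zero hδN hg) (reg_of_den hv hs0 hs1 hsh)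
    rw [v.map_mul _ _ hδN hg, v.ord_pow hδ0, hδ1] at h3
    rw [sub_nonpos, le_div_iff₀ hNp]
    have h4 : a * N ≤ v.ord g := by
      have : (N : ℤ) * -a = -(a * N) := by ring
      rw [this] at h3
      omega
    exact_mod_cast h4
  · rw [eps, if_neg hI]
    by_contra hcon
    have hk : 0 < (a : ℚ) + 1 - v.ord g / N := by
      have h1 : (0 : ℝ) < (a : ℝ) + 1 - (v.ord g : ℝ) / N := by linarith [not_le.1 hcon]
      exact_mod_cast h1
    apply hnot
    obtain ⟨t, ht, ht1⟩ := v.surj
    have htr : v.Reg t := Or.inr (by omega)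
    have htp : v.Pos t := Or.inr (by omega)
    have hdiv : ∀ f, v.Pos f → ∃ y, v.Reg y ∧ f = t * y := by
      intro f hf
      refine ⟨f / t, ?_, by field_simp⟩
      by_cases h0 : f = 0
      · rw [h0, zero_div]
        exact v.reg_zero
      · right
        rw [v.ord_div h0 ht, ht1]
        have := hf.resolve_left h0
        omega
    have hDpos : ∀ D : Derivation ℂ K K, Preserves v D → v.Pos (D t) →
        ∀ f, v.Pos f → v.Pos (D f) := by
      intro D hD hDt f hf
      obtain ⟨y, hy, rfl⟩ := hdiv f hf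
      rw [Derivation.leibniz, smul_eq_mul, smul_eq_mul]
      exact v.pos_add (pos_mul_right htp (hD y hy)) (v.pos_mul_left hy hDt)
    have hrow : ∃ i, ¬ v.Pos (row F A i t) := by
      obtain ⟨i, f, hf, hf'⟩ := exists_row_not_pos ha hA0 hA hAa hI
      exact ⟨i, fun h => hf' (hDpos _ (hA i) h f hf)⟩
    obtain ⟨z, i₁, hzt, hz, hz0, hz1⟩ := exists_frame' (Z := (S : Set K)) hA hv htr hrow
      fun c hc hct h => hkey c hc (hDpos _ (hcomb c hc) (by rw [comb_apply]; exact hct)) h
    obtain ⟨m, hm⟩ := exists_dim hfg hfrac v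
    obtain ⟨u, hu, hures⟩ := exists_res_divisor (Y := ⟨S, hfg, hfrac, hn⟩) hm (E := v)
      ⟨_, hCfg, fun s hs => (integralClosure C K).algebraMap_mem ⟨s, hSC hs⟩, hCv⟩
    have hupd : Function.update z i₁ t = z := by rw [← hzt, Function.update_eq_self]
    have hdt : A.det * detD F z i₁ t = (Matrix.of fun i j => row F A i (z j)).det := by
      rw [det_detD, hupd]
    refine on_of_frame hfg hfrac hn hv (D := detD F z i₁) hg hN (fun w hw hwP => ?_) hA0 hAa
      (fun h hh => reg_det_detD hA (fun j hj => hv _ (hz j hj)) hh) ht ht1 ?_ ?_ hk hm u hu hures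
    · obtain ⟨b, hb, hbg⟩ := hloc w hw hwP
      obtain ⟨B, hB0, hB', hBb⟩ := hb.1
      have hB : ∀ i, Preserves w (row F B i) := hB'
      refine ⟨B.det, hB0, fun h hh => reg_det_detD hB (fun j hj => hw.1 _ (hz j hj)) hh, ?_⟩
      rw [hBb, hbg]
    · rw [← hdt] at hz0
      exact right_ne_zero_of_mul hz0
    · rw [hdt]
      exact hz1

end Pool.Agent.Helper20.FD
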