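import Pool.Agent.H436R3.Can.Defs

/-!
# Normal varieties, prime divisors, discrepancies of foliations

All varieties are normal varieties over `ℂ` in the sense of Chevalley (`Variety`, in
`Pool/Agent/H436R3/Can/Defs.lean`): `X : Variety K` is given by the coordinate rings `X.B i`,
subalgebras of the function field `K`, of the charts of an affine open cover. Prime divisors on
birational models are given by their valuations (`DVal`), and foliations by their generic stalks
(`Foliation`, with the canonical divisor given by `IsCanOrd`, and `IsInvariant`, `eps`), see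
`Pool/Agent/H436R3/Fol/Defs.lean`.
-/

set_option autoImplicit false

namespace Pool.Agent.Helper20.FD

open Pool.Agent.H436R3.Fol Pool.Agent.H436R3.Can

variable {K L : Type} [Field K] [Algebra ℂ K] [Field L] [Algebra ℂ L]

/-- A point of the variety `X`, in the sense of schemes: a prime ideal of the coordinate ring of one
of the charts. -/
structure Point (X : Variety K) where
  i : Fin X.m
  p : Ideal (X.B i)
  prime : p.IsPrime

variable {X : Variety K}

/-- The local ring of `X` at the point `x`. -/
def Point.loc (x : Point X) : Set K := {f | ∃ a b : X.B x.i, b ∉ x.p ∧ f * b = a}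

/-- The dominant rational map from `X` to `Y` given by the inclusion `ι` of the function fields is a
morphism: every point `x` of `X` has a chart of `Y` whose coordinate functions are regular at `x`. -/
def IsMorphismTo (X : Variety K) (Y : Variety L) (ι : L →ₐ[ℂ] K) : Prop :=
  ∀ x : Point X, ∃ j, ∀ b ∈ Y.B j, ι b ∈ x.loc

/-- The birational map from `X'` to `X` given by the identity of the common function field `K` is a
proper morphism (the valuative criterion): every valuation ring of `K` that has a centre on `X` has
a centre on `X'`. -/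
def IsProperBirational (X' X : Variety K) : Prop :=
  IsMorphismTo X' X (AlgHom.id ℂ K) ∧
    ∀ V : ValuationSubring K, (∃ i, ∀ b ∈ X.B i, b ∈ V) → ∃ j, ∀ b ∈ X'.B j, b ∈ V

/-- `v` is the valuation of a prime divisor on `X`. -/
def IsDivisorOf (X : Variety K) (v : DVal K) : Prop := ∃ i, IsLocalRing' (X.B i) v

/-- The centre of `v` on `X` contains the point `x`: the local ring of `X` at `x` is contained in the
valuation ring of `v`. -/
def Point.Thr (x : Point X) (v : DVal K) : Prop :=
  (∀ f ∈ X.B x.i, v.Reg f) ∧ ∀ f : X.B x.i, v.Pos (f : K) → f ∈ x.p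

/-- `v` is the valuation of a prime divisor on `X` that contains the point `x`. -/
def OnAt (x : Point X) (v : DVal K) : Prop := IsLocalRing' (X.B x.i) v ∧ x.Thr v

/-- `X` is `ℚ`-factorial: every prime divisor `v` on `X` has a positive multiple `N v` that is
Cartier, given near every point by one equation `g`. -/
def IsQFactorial (X : Variety K) : Prop :=
  ∀ v : DVal K, IsDivisorOf X v → ∃ N : ℕ, 0 < N ∧ ∀ x : Point X, ∃ g : K, g ≠ 0 ∧
    ∀ u, OnAt x u → (Same u v → u.ord g = N) ∧ (¬ Same u v → u.ord g = 0)

/-- An effective `ℚ`-divisor `a_1 D_1 + ... + a_n D_n` on `X`: the `D_i` are prime divisors on `X`,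
and the `a_i` are non-negative rational numbers. -/
structure EffQDiv (X : Variety K) where
  n : ℕ
  D : Fin n → DVal K
  on : ∀ i, IsDivisorOf X (D i)
  a : Fin n → ℚ
  nonneg : ∀ i, 0 ≤ a i

open Classical in
/-- The multiplicity of the prime divisor `v` in `Δ`. -/
noncomputable def EffQDiv.mult (Δ : EffQDiv X) (v : DVal K) : ℚ :=
  ∑ i, if Same v (Δ.D i) then Δ.a i else 0

variable {r : ℕ}

/-- Near the point `x`, the divisor `N (K_F + Δ)` on `X` is the divisor of the rational function
`g`. -/
def IsLocalEq (x : Point X) (F : Foliation K r) (Δ : EffQDiv X) (N : ℕ) (g : K) : Prop :=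
  0 < N ∧ g ≠ 0 ∧ ∀ u, OnAt x u → ∃ a : ℤ, IsCanOrd F u a ∧ (N : ℚ) * (a + Δ.mult u) = u.ord g

/-- `K_F + Δ` is `ℚ`-Cartier, and `a (E, F, Δ) > - ε (E)` for all prime divisors `E` on `X'` that
are not divisors on `X`: at every point `x` of `X` there is a local equation `g` of `N (K_F + Δ)`,
and for every prime divisor `v` on `X'` which is exceptional over `X`, and whose centre on `X`
contains `x`, the discrepancy `n - v (g) / N`, the multiplicity `n` of `v` in the canonical divisor
of `F` minus the one in the pull-back of `K_F + Δ` from `X`, is bigger than `- ε (v)`. -/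
def DiscrepanciesGT (X X' : Variety K) (F : Foliation K r) (Δ : EffQDiv X) : Prop :=
  ∀ x : Point X, ∃ (N : ℕ) (g : K), IsLocalEq x F Δ N g ∧
    ∀ v, IsDivisorOf X' v → ¬ IsDivisorOf X v → x.Thr v →
      ∃ n : ℤ, IsCanOrd F v n ∧ -(eps F v) < (n : ℝ) - (v.ord g : ℝ) / N

end Pool.Agent.Helper20.FD
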