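import Pool.Agent.Helper20.FD.Defs
import Pool.Agent.Helper20.FD.Core

/-!
# Local rings and valuation rings
-/

set_option autoImplicit false

namespace Pool.Agent.Helper20.FD

open Pool.Agent.H436R3.Fol Pool.Agent.H436R3.Can Pool.Agent.Helper81_gap

variable {K L : Type} [Field K] [Algebra ℂ K] [Field L] [Algebra ℂ L] {X : Variety K}

/-- The valuation ring of a discrete valuation. -/
def VS (v : DVal K) : ValuationSubring K where
  toSubring := v.O
  mem_or_inv_mem' := fun f => by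
    change v.Reg f ∨ v.Reg f⁻¹
    by_cases hf : f = 0
    · exact Or.inl (Or.inl hf)
    by_cases h : 0 ≤ v.ord f
    · exact Or.inl (Or.inr h)
    · right
      right
      rw [v.ord_inv hf]
      omega

theorem mem_VS {v : DVal K} {f : K} : f ∈ VS v ↔ v.Reg f := Iff.rfl

theorem inv_mem_VS {v : DVal K} {f : K} (hf : v.Reg f) (hf0 : f ≠ 0) :
    f⁻¹ ∈ VS v ↔ v.ord f = 0 := by
  rw [mem_VS]
  have h1 := v.ord_nonneg hf0 hf
  constructor
  · intro h
    have h2 := v.ord_nonneg (inv_ne_zero hf0) h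
    rw [v.ord_inv hf0] at h2
    omega
  · intro h
    exact v.reg_inv hf0 h

/-- The valuation ring `V` dominates the local ring of `X` at `x`. -/
def Dom (x : Point X) (V : ValuationSubring K) : Prop :=
  (∀ f ∈ X.B x.i, f ∈ V) ∧ ∀ f : X.B x.i, f ∉ x.p ↔ ((f : K) ≠ 0 ∧ (f : K)⁻¹ ∈ V)

variable {x : Point X} {V : ValuationSubring K}

theorem one_notMem (x : Point X) : (1 : X.B x.i) ∉ x.p := fun h =>
  x.prime.ne_top ((Ideal.eq_top_iff_one _).2 h)

theorem ne_zero_of_notMem {s : X.B x.i} (hs : s ∉ x.p) : (s : K) ≠ 0 := by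
  intro h0
  apply hs
  have : s = 0 := Subtype.ext h0
  rw [this]
  exact x.p.zero_mem

theorem mem_loc_of (x : Point X) {f : K} (hf : f ∈ X.B x.i) : f ∈ x.loc :=
  ⟨⟨f, hf⟩, 1, one_notMem x, by rw [OneMemClass.coe_one, mul_one]⟩

theorem loc_mul {f g : K} (hf : f ∈ x.loc) (hg : g ∈ x.loc) : f * g ∈ x.loc := by
  obtain ⟨a, b, hb, hab⟩ := hf
  obtain ⟨c, d, hd, hcd⟩ := hg
  refine ⟨a * c, b * d, fun h => (x.prime.mem_or_mem h).elim hb hd, ?_⟩
  push_cast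
  rw [← hab, ← hcd]
  ring

theorem loc_add {f g : K} (hf : f ∈ x.loc) (hg : g ∈ x.loc) : f + g ∈ x.loc := by
  obtain ⟨a, b, hb, hab⟩ := hf
  obtain ⟨c, d, hd, hcd⟩ := hg
  refine ⟨a * d + c * b, b * d, fun h => (x.prime.mem_or_mem h).elim hb hd, ?_⟩
  push_cast
  rw [← hab, ← hcd]
  ring

/-- The local ring as a subalgebra. -/
def locA (x : Point X) : Subalgebra ℂ K where
  carrier := x.loc
  mul_mem' := loc_mul
  add_mem' := loc_add
  algebraMap_mem' := fun c => mem_loc_of x ((X.B x.i).algebraMap_mem c)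

theorem mem_locA {f : K} : f ∈ locA x ↔ f ∈ x.loc := Iff.rfl

theorem inv_mem_loc {s : X.B x.i} (hs : s ∉ x.p) : (s : K)⁻¹ ∈ x.loc :=
  ⟨1, s, hs, by rw [OneMemClass.coe_one, inv_mul_cancel₀ (ne_zero_of_notMem hs)]⟩

theorem loc_eq (h : Dom x V) : x.loc = locAt (X.B x.i) V := by
  ext f
  constructor
  · rintro ⟨a, b, hb, hab⟩
    obtain ⟨h1, h2⟩ := (h.2 b).1 hb
    exact ⟨a, a.2, b, b.2, h1, h2, hab⟩
  · rintro ⟨a, ha, b, hb, hb0, hbV, hab⟩
    exact ⟨⟨a, ha⟩, ⟨b, hb⟩, (h.2 ⟨b, hb⟩).2 ⟨hb0, hbV⟩, hab⟩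

theorem mem_of_loc (h : Dom x V) {f : K} (hf : f ∈ x.loc) : f ∈ V := by
  obtain ⟨a, b, hb, hab⟩ := hf
  obtain ⟨h1, h2⟩ := (h.2 b).1 hb
  have h3 : f = (a : K) * (b : K)⁻¹ := by
    rw [← hab]
    field_simp
  rw [h3]
  exact V.mul_mem _ _ (h.1 _ a.2) h2

theorem inv_mem_loc_of (h : Dom x V) {f : K} (hf : f ∈ x.loc) (hf0 : f ≠ 0) (hfV : f⁻¹ ∈ V) :
    f⁻¹ ∈ x.loc := by
  obtain ⟨a, b, hb, hab⟩ := hf
  obtain ⟨h1, h2⟩ := (h.2 b).1 hb
  have ha0 : (a : K) ≠ 0 := by rw [← hab]; exact mul_ne_zero hf0 h1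
  have h3 : (a : K)⁻¹ ∈ V := by
    rw [← hab, mul_inv]
    exact V.mul_mem _ _ hfV h2
  refine ⟨b, a, (h.2 a).2 ⟨ha0, h3⟩, ?_⟩
  rw [← hab]
  field_simp

/-- Every point has a dominating valuation ring. -/
theorem exists_dom (x : Point X) : ∃ V : ValuationSubring K, Dom x V := by
  let A : Subring K := (X.B x.i).toSubring
  let P : Ideal A := x.p
  have hP : P.IsPrime := x.prime
  obtain ⟨V, hV⟩ := (LocalSubring.ofPrime A P).exists_le_valuationSubring
  have hAV : ∀ f ∈ X.B x.i, f ∈ V := fun f hf => hV.1 (LocalSubring.le_ofPrime A P hf)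
  refine ⟨V, hAV, fun f => ?_⟩
  let f' : A := f
  let y : (LocalSubring.ofPrime A P).toSubring := algebraMap A _ f'
  have h1 : IsUnit y ↔ f ∉ x.p :=
    IsLocalization.AtPrime.isUnit_to_map_iff (LocalSubring.ofPrime A P).toSubring P f'
  let w : V := ⟨(f : K), hAV f f.2⟩
  have h2 : IsUnit y ↔ IsUnit w := by
    constructor
    · intro h
      exact h.map (Subring.inclusion hV.1)
    · intro h
      obtain ⟨h3, h4⟩ := hV
      exact h4.map_nonunit y h
  have h3 : IsUnit w ↔ ((f : K) ≠ 0 ∧ (f : K)⁻¹ ∈ V) := by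
    constructor
    · intro h
      obtain ⟨z, hz⟩ := h.exists_right_inv
      have hz' : (f : K) * (z : K) = 1 := congrArg Subtype.val hz
      have h0 : (f : K) ≠ 0 := left_ne_zero_of_mul_eq_one hz'
      refine ⟨h0, ?_⟩
      rw [← eq_inv_of_mul_eq_one_right hz']
      exact z.2
    · rintro ⟨h0, h4⟩
      exact IsUnit.of_mul_eq_one ⟨(f : K)⁻¹, h4⟩ (Subtype.ext (mul_inv_cancel₀ h0))
  rw [← h1, h2, h3]

/-- The centre of a valuation ring on `X`. -/
theorem exists_centre {i : Fin X.m} (h : ∀ b ∈ X.B i, b ∈ V) :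
    ∃ x : Point X, x.i = i ∧ Dom x V := by
  let ψ : X.B i →+* V :=
    { toFun := fun s => ⟨(s : K), h _ s.2⟩
      map_one' := rfl
      map_mul' := fun _ _ => rfl
      map_zero' := rfl
      map_add' := fun _ _ => rfl }
  refine ⟨⟨i, (IsLocalRing.maximalIdeal V).comap ψ, Ideal.comap_isPrime _ _⟩, rfl, h, fun f => ?_⟩
  have h1 : f ∉ (IsLocalRing.maximalIdeal V).comap ψ ↔ IsUnit (ψ f) := by
    rw [Ideal.mem_comap, IsLocalRing.mem_maximalIdeal, mem_nonunits_iff, not_not]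
  change f ∉ (IsLocalRing.maximalIdeal V).comap ψ ↔ _
  rw [h1]
  constructor
  · intro h
    obtain ⟨z, hz⟩ := h.exists_right_inv
    have hz' : (f : K) * (z : K) = 1 := congrArg Subtype.val hz
    have h0 : (f : K) ≠ 0 := left_ne_zero_of_mul_eq_one hz'
    refine ⟨h0, ?_⟩
    rw [← eq_inv_of_mul_eq_one_right hz']
    exact z.2
  · rintro ⟨h0, h4⟩
    exact IsUnit.of_mul_eq_one ⟨(f : K)⁻¹, h4⟩ (Subtype.ext (mul_inv_cancel₀ h0))

/-- If the functions of a chart of the target are regular at `x`, and the ones of a second chart lie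
in a valuation ring which dominates the local ring at `x`, they are regular at `x`. -/
theorem chart_transfer {Y : Variety L} {ι : L →ₐ[ℂ] K} (hx : Dom x V) {j k : Fin Y.m}
    (hk : ∀ b ∈ Y.B k, ι b ∈ x.loc) (hj : ∀ b ∈ Y.B j, ι b ∈ V) :
    ∀ b ∈ Y.B j, ι b ∈ x.loc := by
  intro b hb
  have h1 := Y.separated j k (V.comap (ι : L →+* K)) (fun b hb => hj b hb)
    (fun b hb => mem_of_loc hx (hk b hb))
  have h2 : b ∈ locAt (Y.B j) (V.comap (ι : L →+* K)) :=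
    ⟨b, hb, 1, (Y.B j).one_mem, one_ne_zero, by rw [inv_one]; exact one_mem _, mul_one _⟩
  rw [h1] at h2
  obtain ⟨a, ha, c, hc, hc0, hcV, hac⟩ := h2
  have hc0' : ι c ≠ 0 := (map_ne_zero ι).2 hc0
  have hcV' : (ι c)⁻¹ ∈ V := by
    have h3 : (ι : L →+* K) c⁻¹ ∈ V := hcV
    rw [map_inv₀] at h3
    exact h3
  have h4 := inv_mem_loc_of hx (hk c hc) hc0' hcV'
  have h5 : ι b = ι a * (ι c)⁻¹ := by
    rw [← hac, map_mul]
    field_simp
  rw [h5]
  exact loc_mul (hk a ha) h4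

/-- Hartogs: functions without poles along the divisors through `x` are regular at `x`. -/
theorem mem_loc_of_reg {f : K} (h : ∀ u, OnAt x u → u.Reg f) : f ∈ x.loc := by
  obtain ⟨s, hs, hsf⟩ := Pool.Agent.TH670.C8_HARTP.hartogs_local (X.fg x.i) (X.frac x.i)
    (X.normal x.i) x.p x.prime (F := f) fun w hw hwP => h w ⟨hw, hw.1, hwP⟩
  exact ⟨⟨_, hsf⟩, s, hs, mul_comm _ _⟩

theorem ord_of_notMem {v : DVal K} (hv : x.Thr v) {s : X.B x.i} (hs : s ∉ x.p) :
    (s : K) ≠ 0 ∧ v.ord (s : K) = 0 :=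
  ord_of_reg_not_pos (hv.1 _ s.2) fun h => hs (hv.2 s h)

theorem reg_of_mem_loc {v : DVal K} (hv : x.Thr v) {f : K} (hf : f ∈ x.loc) : v.Reg f := by
  obtain ⟨a, b, hb, hab⟩ := hf
  obtain ⟨hb0, hb1⟩ := ord_of_notMem hv hb
  have h3 : f = (a : K) * (b : K)⁻¹ := by
    rw [← hab]
    field_simp
  rw [h3]
  exact v.reg_mul (hv.1 _ a.2) (v.reg_inv hb0 hb1)

/-- The local rings are integrally closed. -/
theorem mem_loc_of_int {C : Subalgebra ℂ K} (hC : ∀ c ∈ C, c ∈ x.loc) {f : K}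
    (hf : IsIntegral C f) : f ∈ x.loc :=
  mem_loc_of_reg fun u hu => reg_of_int u (fun c hc => reg_of_mem_loc hu.2 (hC c hc)) hf

/-- The valuation ring which dominates the local ring at `x` equals the local ring if it is a
localisation of a subring of it. -/
theorem isLocalRing_of_dom {v : DVal K} (hx : Dom x (VS v)) {C : Subalgebra ℂ K}
    (hC : ∀ c ∈ C, c ∈ x.loc) (hCv : IsLocalRing' C v) : IsLocalRing' (X.B x.i) v := by
  refine ⟨hx.1, fun f hf => ?_⟩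
  obtain ⟨a, b, ha, hb, hb0, hb1, hab⟩ := hCv.2 f hf
  have h1 := inv_mem_loc_of hx (hC b hb) hb0 ((inv_mem_VS (hCv.1 b hb) hb0).2 hb1)
  have h2 : f = a * b⁻¹ := by
    rw [← hab]
    field_simp
  have h3 : f ∈ x.loc := by
    rw [h2]
    exact loc_mul (hC a ha) h1
  obtain ⟨c, d, hd, hcd⟩ := h3
  obtain ⟨h4, h5⟩ := (hx.2 d).1 hd
  exact ⟨c, d, c.2, d.2, h4, (inv_mem_VS (hx.1 _ d.2) h4).1 h5, hcd⟩

end Pool.Agent.Helper20.FD
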