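import Pool.Agent.Helper20.FD.Geo1
import Pool.Agent.TH126.C8_FG

/-!
# Local equations; an exceptional divisor over a point of indeterminacy
-/

set_option autoImplicit false

namespace Pool.Agent.Helper20.FD

open Pool.Agent.H436R3.Fol Pool.Agent.H436R3.Can Pool.Agent.Helper81_gap Pool.Agent.W497.Mld

variable {K L : Type} [Field K] [Algebra ℂ K] [Field L] [Algebra ℂ L] {X X' : Variety K}

theorem ord_prod_zpow {n : ℕ} (v : DVal K) (g : Fin n → K) (hg : ∀ i, g i ≠ 0)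
    (e : Fin n → ℤ) : v.ord (∏ i, g i ^ e i) = ∑ i, e i * v.ord (g i) := by
  rw [v.ord_prod _ _ fun i _ => zpow_ne_zero _ (hg i)]
  refine Finset.sum_congr rfl fun i _ => ?_
  rw [v.ord_zpow (hg i)]

/-- A local equation of `K_F` from one of `K_F + Δ`. -/
theorem exists_eq_of_qfac {r : ℕ} {F : Foliation K r} {Δ : EffQDiv X} (hX : IsQFactorial X)
    (x : Point X) {N₀ : ℕ} {g₀ : K} (h : IsLocalEq x F Δ N₀ g₀) :
    ∃ (N : ℕ) (g : K), 0 < N ∧ g ≠ 0 ∧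
      (∀ u, OnAt x u → ∃ b : ℤ, IsCanOrd F u b ∧ N * b = u.ord g) ∧
      ∀ v, x.Thr v → (v.ord g : ℝ) / N ≤ (v.ord g₀ : ℝ) / N₀ := by
  classical
  obtain ⟨hN₀, hg₀, hu⟩ := h
  choose N hN hNx using fun i => hX (Δ.D i) (Δ.on i)
  choose h hh0 hh using fun i => hNx i x
  set M : ℕ := ∏ j, (Δ.a j).den * N j with hM
  have hMpos : 0 < M := Finset.prod_pos fun j _ => Nat.mul_pos (Δ.a j).den_pos (hN j)
  have he : ∀ i, ∃ e : ℤ, 0 ≤ e ∧ (e : ℚ) * N i = N₀ * M * Δ.a i := by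
    intro i
    obtain ⟨q, hq⟩ : (Δ.a i).den * N i ∣ M :=
      Finset.dvd_prod_of_mem (fun j => (Δ.a j).den * N j) (Finset.mem_univ i)
    refine ⟨N₀ * (Δ.a i).num * q, ?_, ?_⟩
    · exact mul_nonneg (mul_nonneg (Nat.cast_nonneg _) (Rat.num_nonneg.2 (Δ.nonneg i)))
        (Nat.cast_nonneg _)
    · have h2 : ((Δ.a i).den : ℚ) * Δ.a i = (Δ.a i).num := by
        rw [mul_comm]
        exact Rat.mul_den_eq_num _
      rw [hq]
      push_cast
      rw [← h2]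
      ring
  choose e he0 he1 using he
  have hP0 : ∏ i, h i ^ (-e i) ≠ 0 := Finset.prod_ne_zero_iff.2 fun i _ => zpow_ne_zero _ (hh0 i)
  have hgM : g₀ ^ M ≠ 0 := pow_ne_zero _ hg₀
  have hord : ∀ v : DVal K, v.ord (g₀ ^ M * ∏ i, h i ^ (-e i)) =
      M * v.ord g₀ - ∑ i, e i * v.ord (h i) := by
    intro v
    rw [v.map_mul _ _ hgM hP0, v.ord_pow hg₀, ord_prod_zpow v h hh0]
    simp only [neg_mul, Finset.sum_neg_distrib]
    ring
  refine ⟨N₀ * M, g₀ ^ M * ∏ i, h i ^ (-e i), Nat.mul_pos hN₀ hMpos, mul_ne_zero hgM hP0,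
    fun u hux => ?_, fun v hvx => ?_⟩
  · obtain ⟨b, hb, hbe⟩ := hu u hux
    refine ⟨b, hb, ?_⟩
    rw [hord]
    have h3 : ((∑ i, e i * u.ord (h i) : ℤ) : ℚ) = N₀ * M * Δ.mult u := by
      rw [EffQDiv.mult, Finset.mul_sum]
      push_cast
      refine Finset.sum_congr rfl fun i _ => ?_
      by_cases hs : Same u (Δ.D i)
      · rw [if_pos hs, (hh i u hux).1 hs, ← he1 i]
        push_cast
        ring
      · rw [if_neg hs, (hh i u hux).2 hs]
        push_cast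
        ring
    have h4 : (((N₀ * M : ℕ) : ℤ) * b : ℤ) = (M * u.ord g₀ - ∑ i, e i * u.ord (h i) : ℤ) := by
      have h5 : ((((N₀ * M : ℕ) : ℤ) * b : ℤ) : ℚ) =
          ((M * u.ord g₀ - ∑ i, e i * u.ord (h i) : ℤ) : ℚ) := by
        rw [Int.cast_sub, h3]
        push_cast
        rw [← hbe]
        ring
      exact_mod_cast h5
    exact h4
  · have h1 : ∀ i, 0 ≤ v.ord (h i) := by
      intro i
      refine v.ord_nonneg (hh0 i) (reg_of_mem_loc hvx (mem_loc_of_reg fun u hux => ?_))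
      by_cases hs : Same u (Δ.D i)
      · right
        rw [(hh i u hux).1 hs]
        exact Nat.cast_nonneg _
      · right
        rw [(hh i u hux).2 hs]
    have h2 : v.ord (g₀ ^ M * ∏ i, h i ^ (-e i)) ≤ M * v.ord g₀ := by
      rw [hord]
      have : 0 ≤ ∑ i, e i * v.ord (h i) :=
        Finset.sum_nonneg fun i _ => mul_nonneg (he0 i) (h1 i)
      omega
    have hM' : (0 : ℝ) < M := by exact_mod_cast hMpos
    have hN' : (0 : ℝ) < N₀ := by exact_mod_cast hN₀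
    have h3 : ((v.ord (g₀ ^ M * ∏ i, h i ^ (-e i)) : ℤ) : ℝ) ≤ M * v.ord g₀ := by exact_mod_cast h2
    rw [div_le_div_iff₀ (by push_cast; positivity) hN']
    push_cast
    nlinarith [mul_le_mul_of_nonneg_right h3 hN'.le]

/-- The polar divisor of a function which is not regular at `x`. -/
theorem exists_pole_eq (hX : IsQFactorial X) (x : Point X) {t : K} (ht : t ∉ x.loc) :
    ∃ g : X.B x.i, (g : K) ≠ 0 ∧ g ∈ x.p ∧ t * (g : K) ∈ X.B x.i ∧
      ∀ u, OnAt x u → u.Pos (g : K) → ¬ u.Reg t := by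
  classical
  have ht0 : t ≠ 0 := by
    rintro rfl
    exact ht (mem_loc_of x (X.B x.i).zero_mem)
  obtain ⟨Z, hZ, hZl, hZa⟩ := Pool.Agent.TH670.C8_HARTP.finite_aux (X.fg x.i) (X.frac x.i) t ht0
  have hch : ∀ z : DVal K, ∃ g : K, g ≠ 0 ∧ (IsLocalRing' (X.B x.i) z → ∀ u, OnAt x u →
      (Same u z → 1 ≤ u.ord g) ∧ (¬ Same u z → u.ord g = 0)) := by
    intro z
    by_cases hz : IsLocalRing' (X.B x.i) z
    · obtain ⟨N, hN, hg⟩ := hX z ⟨_, hz⟩
      obtain ⟨g, hg0, hg⟩ := hg x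
      refine ⟨g, hg0, fun _ u hu => ⟨fun hs => ?_, (hg u hu).2⟩⟩
      rw [(hg u hu).1 hs]
      exact_mod_cast hN
    · exact ⟨1, one_ne_zero, fun h => absurd h hz⟩
  choose G hG0 hG using hch
  let T : Finset (DVal K) := hZ.toFinset.filter fun z => z.ord t < 0
  have hT : ∀ z, z ∈ T ↔ z ∈ Z ∧ z.ord t < 0 := fun z => by
    simp [T]
  set g₁ : K := ∏ z ∈ T, G z ^ (-z.ord t).toNat with hg₁
  have hg₁0 : g₁ ≠ 0 := Finset.prod_ne_zero_iff.2 fun z _ => pow_ne_zero _ (hG0 z)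
  have hord : ∀ u : DVal K, u.ord g₁ = ∑ z ∈ T, ((-z.ord t).toNat : ℤ) * u.ord (G z) := by
    intro u
    rw [hg₁, u.ord_prod _ _ fun z _ => pow_ne_zero _ (hG0 z)]
    exact Finset.sum_congr rfl fun z _ => u.ord_pow (hG0 z) _
  have hterm : ∀ u, OnAt x u → ∀ z ∈ T, 0 ≤ ((-z.ord t).toNat : ℤ) * u.ord (G z) := by
    intro u hu z hz
    refine mul_nonneg (Nat.cast_nonneg _) ?_
    have h1 := hG z (hZl z ((hT z).1 hz).1) u hu
    by_cases hs : Same u z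
    · exact zero_le_one.trans (h1.1 hs)
    · exact (h1.2 hs).ge
  have hnn : ∀ u, OnAt x u → 0 ≤ u.ord g₁ := fun u hu => by
    rw [hord]
    exact Finset.sum_nonneg (hterm u hu)
  have hge : ∀ u, OnAt x u → u.ord t < 0 → -u.ord t ≤ u.ord g₁ := by
    intro u hu hut
    obtain ⟨z, hz, hzu⟩ := hZa u hu.1 hut.ne
    have hzT : z ∈ T := (hT z).2 ⟨hz, by rw [← hzu t ht0]; exact hut⟩
    have h1 := (hG z (hZl z hz) u hu).1 hzu
    have h2 := Finset.single_le_sum (hterm u hu) hzT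
    rw [← hord] at h2
    refine le_trans ?_ h2
    have h3 : ((-z.ord t).toNat : ℤ) = -u.ord t := by
      rw [Int.toNat_of_nonneg (by have := ((hT z).1 hzT).2; omega), hzu t ht0]
    rw [h3]
    nlinarith
  have hpos : ∀ u, OnAt x u → 0 < u.ord g₁ → u.ord t < 0 := by
    intro u hu hug
    rw [hord] at hug
    obtain ⟨z, hz, hz1⟩ := Finset.exists_ne_zero_of_sum_ne_zero hug.ne'
    have h1 := hG z (hZl z ((hT z).1 hz).1) u hu
    by_cases hs : Same u z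
    · rw [hs t ht0]
      exact ((hT z).1 hz).2
    · rw [h1.2 hs, mul_zero] at hz1
      exact absurd rfl hz1
  obtain ⟨a₁, b₁, hb₁, hab₁⟩ := mem_loc_of_reg (x := x) (f := g₁) fun u hu => Or.inr (hnn u hu)
  obtain ⟨a₂, b₂, hb₂, hab₂⟩ := mem_loc_of_reg (x := x) (f := t * g₁) fun u hu => by
    right
    rw [u.map_mul _ _ ht0 hg₁0]
    by_cases hut : u.ord t < 0
    · have := hge u hu hut
      omega
    · have := hnn u hu
      omega
  have hbb : b₁ * b₂ ∉ x.p := fun h => (x.prime.mem_or_mem h).elim hb₁ hb₂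
  have hgeq : ((a₁ * b₂ : X.B x.i) : K) = g₁ * ((b₁ * b₂ : X.B x.i) : K) := by
    push_cast
    rw [← hab₁]
    ring
  have hgne : ((a₁ * b₂ : X.B x.i) : K) ≠ 0 := by
    rw [hgeq]
    exact mul_ne_zero hg₁0 (ne_zero_of_notMem hbb)
  have htg : t * ((a₁ * b₂ : X.B x.i) : K) = ((a₂ * b₁ : X.B x.i) : K) := by
    rw [hgeq]
    push_cast
    rw [← hab₂]
    ring
  refine ⟨a₁ * b₂, hgne, ?_, ?_, fun u hu hug => ?_⟩
  · by_contra hc
    exact ht ⟨a₂ * b₁, a₁ * b₂, hc, htg⟩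
  · rw [htg]
    exact (a₂ * b₁).2
  · have h1 := hug.resolve_left hgne
    obtain ⟨h2, h3⟩ := ord_of_notMem hu.2 hbb
    rw [hgeq, u.map_mul _ _ hg₁0 h2, h3, add_zero] at h1
    have h4 := hpos u hu h1
    rintro (h5 | h5)
    · exact ht0 h5
    · omega

/-- An affine variety which dominates `X` near `x` and maps to `Y`. -/
def CC (x : Point X) {Y : Variety L} (ι : L →ₐ[ℂ] K) (k : Fin Y.m) : Subalgebra ℂ K :=
  X.B x.i ⊔ (Y.B k).map ι

/-- Its normalisation. -/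
noncomputable def CN (x : Point X) {Y : Variety L} (ι : L →ₐ[ℂ] K) (k : Fin Y.m) :
    Subalgebra ℂ K := (integralClosure (CC x ι k) K).restrictScalars ℂ

variable {Y : Variety L} {ι : L →ₐ[ℂ] K}

theorem mem_CN {x : Point X} {k : Fin Y.m} {f : K} :
    f ∈ CN x ι k ↔ IsIntegral (CC x ι k) f := Iff.rfl

theorem CC_le_CN {x : Point X} {k : Fin Y.m} {f : K} (hf : f ∈ CC x ι k) : f ∈ CN x ι k :=
  (integralClosure (CC x ι k) K).algebraMap_mem ⟨f, hf⟩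

theorem CC_le_loc {x : Point X} {y : Point X'} {k : Fin Y.m} (h1 : ∀ b ∈ X.B x.i, b ∈ y.loc)
    (h2 : ∀ b ∈ Y.B k, ι b ∈ y.loc) : ∀ c ∈ CC x ι k, c ∈ y.loc := by
  have h : CC x ι k ≤ locA y := by
    refine sup_le (fun b hb => h1 b hb) ?_
    rintro _ ⟨b, hb, rfl⟩
    exact h2 b hb
  exact fun c hc => h hc

theorem CC_fg (x : Point X) (k : Fin Y.m) : (CC x ι k).FG :=
  Subalgebra.FG.sup (X.fg _) ((Y.fg k).map ι)

theorem CC_frac (x : Point X) (k : Fin Y.m) (f : K) :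
    ∃ a b : K, a ∈ CC x ι k ∧ b ∈ CC x ι k ∧ b ≠ 0 ∧ f * b = a := by
  obtain ⟨a, b, ha, hb, hb0, hab⟩ := X.frac x.i f
  exact ⟨a, b, (le_sup_left : X.B x.i ≤ _) ha, (le_sup_left : X.B x.i ≤ _) hb, hb0, hab⟩

theorem CN_frac (x : Point X) (k : Fin Y.m) (f : K) :
    ∃ a b : K, a ∈ CN x ι k ∧ b ∈ CN x ι k ∧ b ≠ 0 ∧ f * b = a := by
  obtain ⟨a, b, ha, hb, hb0, hab⟩ := CC_frac (ι := ι) x k f
  exact ⟨a, b, CC_le_CN ha, CC_le_CN hb, hb0, hab⟩

theorem CN_normal (x : Point X) (k : Fin Y.m) (f : K) (hf : IsIntegral (CN x ι k) f) :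
    f ∈ CN x ι k := by
  have h1 : IsIntegral (integralClosure (CC x ι k) K) f := hf
  exact isIntegral_trans (R := CC x ι k) (A := integralClosure (CC x ι k) K) f h1

theorem CN_fg (x : Point X) (k : Fin Y.m) : (CN x ι k).FG := by
  have h1 : Algebra.EssFiniteType ℂ K := essFinite ⟨X.B x.i, X.fg _, X.frac _, X.normal _⟩
  refine Pool.Agent.TH126.C8_FG.integralClosure_fg _ (CC_fg x k) fun f => ?_
  have h2 : IsFractionRing (CC x ι k) K := fractionRing_of (CC_frac x k)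
  have h3 : Algebra.IsAlgebraic (CC x ι k) K :=
    IsLocalization.isAlgebraic (S := K) (nonZeroDivisors (CC x ι k))
  exact h3.1 f

/-- If the rational map to `Y` is not regular at `x`, there is an exceptional divisor on `X'` over
`x`, which is a divisor on the normalisation of the graph. -/
theorem exists_exceptional (hX : IsQFactorial X) (hπ : IsProperBirational X' X)
    (hf : IsMorphismTo X' Y ι) (x : Point X) (hx : ¬ ∃ j, ∀ b ∈ Y.B j, ι b ∈ x.loc) :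
    ∃ (k : Fin Y.m) (v : DVal K), x.Thr v ∧ ¬ IsDivisorOf X v ∧ IsDivisorOf X' v ∧
      IsLocalRing' (CN x ι k) v := by
  classical
  obtain ⟨V, hV⟩ := exists_dom x
  obtain ⟨j', hj'⟩ := hπ.2 V ⟨x.i, hV.1⟩
  obtain ⟨x', _, hx'⟩ := exists_centre hj'
  obtain ⟨i', hi'⟩ := hπ.1 x'
  have h1 : ∀ b ∈ X.B x.i, b ∈ x'.loc :=
    chart_transfer (Y := X) (ι := AlgHom.id ℂ K) hx' hi' hV.1
  obtain ⟨k, hk⟩ := hf x'
  have h2 : ¬ ∀ b ∈ Y.B k, ι b ∈ x.loc := fun h => hx ⟨k, h⟩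
  push Not at h2
  obtain ⟨b, hb, hbx⟩ := h2
  obtain ⟨g, hg0, hgp, htg, hgu⟩ := exists_pole_eq hX x hbx
  have hCloc : ∀ c ∈ CN x ι k, c ∈ x'.loc := fun c hc =>
    mem_loc_of_int (CC_le_loc h1 hk) (mem_CN.1 hc)
  have hCV : ∀ c ∈ CN x ι k, c ∈ V := fun c hc => mem_of_loc hx' (hCloc c hc)
  let ψ : CN x ι k →+* V :=
    { toFun := fun s => ⟨(s : K), hCV _ s.2⟩
      map_one' := rfl
      map_mul' := fun _ _ => rfl
      map_zero' := rfl
      map_add' := fun _ _ => rfl }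
  let q : Ideal (CN x ι k) := (IsLocalRing.maximalIdeal V).comap ψ
  have hq : q.IsPrime := Ideal.comap_isPrime _ _
  have hqm : ∀ c : CN x ι k, c ∈ q → ¬ ((c : K) ≠ 0 ∧ (c : K)⁻¹ ∈ V) := by
    rintro c hc ⟨h0, h3⟩
    have h4 : ψ c ∈ IsLocalRing.maximalIdeal V := hc
    rw [IsLocalRing.mem_maximalIdeal, mem_nonunits_iff] at h4
    exact h4 (IsUnit.of_mul_eq_one ⟨(c : K)⁻¹, h3⟩ (Subtype.ext (mul_inv_cancel₀ h0)))
  have hqm' : ∀ c : CN x ι k, c ∉ q → ((c : K) ≠ 0 ∧ (c : K)⁻¹ ∈ V) := by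
    intro c hc
    have h4 : ψ c ∉ IsLocalRing.maximalIdeal V := hc
    rw [IsLocalRing.mem_maximalIdeal, mem_nonunits_iff, not_not] at h4
    obtain ⟨z, hz⟩ := h4.exists_right_inv
    have hz' : (c : K) * (z : K) = 1 := congrArg Subtype.val hz
    have h0 : (c : K) ≠ 0 := left_ne_zero_of_mul_eq_one hz'
    refine ⟨h0, ?_⟩
    rw [← eq_inv_of_mul_eq_one_right hz']
    exact z.2
  have hSC : ∀ b ∈ X.B x.i, b ∈ CN x ι k := fun b hb =>
    CC_le_CN ((le_sup_left : X.B x.i ≤ _) hb)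
  have hYC : ∀ b ∈ Y.B k, ι b ∈ CN x ι k := fun b hb =>
    CC_le_CN ((le_sup_right : (Y.B k).map ι ≤ _) ⟨b, hb, rfl⟩)
  have hgq : (⟨g, hSC g g.2⟩ : CN x ι k) ∈ q := by
    by_contra hc
    exact (hV.2 g).2 (hqm' _ hc) hgp
  obtain ⟨v, hv, hvq, hvg⟩ : ∃ v : DVal K, IsLocalRing' (CN x ι k) v ∧
      (∀ s : CN x ι k, v.Pos (s : K) → s ∈ q) ∧ ¬ v.Reg (g : K)⁻¹ := by
    by_contra hc
    push Not at hc
    obtain ⟨s, hs, hsg⟩ := Pool.Agent.TH670.C8_HARTP.hartogs_local (CN_fg x k) (CN_frac x k)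
      (CN_normal x k) q hq (F := (g : K)⁻¹) fun w hw hwx => hc w hw hwx
    apply hs
    have h3 : s = (⟨_, hsg⟩ : CN x ι k) * ⟨g, hSC g g.2⟩ := Subtype.ext (by
      change (s : K) = (s : K) * (g : K)⁻¹ * (g : K)
      field_simp)
    rw [h3]
    exact q.mul_mem_left _ hgq
  have hgv : v.Pos (g : K) := by
    right
    by_contra hc
    apply hvg
    right
    rw [v.ord_inv hg0]
    omega
  have hThr : x.Thr v := by
    refine ⟨fun f hf => hv.1 f (hSC f hf), fun f hf => ?_⟩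
    by_contra hc
    exact hqm _ (hvq ⟨f, hSC f f.2⟩ hf) ((hV.2 f).1 hc)
  refine ⟨k, v, hThr, ?_, ?_, hv⟩
  · rintro ⟨i, hi⟩
    obtain ⟨y, hyi, hy⟩ := exists_centre (X := X) (V := VS v) (i := x.i) fun b hb => hThr.1 b hb
    have h3 : ∀ b ∈ X.B i, b ∈ y.loc :=
      chart_transfer (Y := X) (ι := AlgHom.id ℂ K) (k := y.i) hy (fun b hb => mem_loc_of y hb)
        (fun b hb => hi.1 b hb)
    have h4 := isLocalRing_of_dom hy h3 hi
    rw [hyi] at h4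
    exact hgu v ⟨h4, hThr⟩ hgv (hv.1 _ (hYC b hb))
  · obtain ⟨j'', hj''⟩ := hπ.2 (VS v) ⟨x.i, fun b hb => hThr.1 b hb⟩
    obtain ⟨y, hyi, hy⟩ := exists_centre hj''
    obtain ⟨i'', hi''⟩ := hπ.1 y
    have h3 : ∀ b ∈ X.B x.i, b ∈ y.loc :=
      chart_transfer (Y := X) (ι := AlgHom.id ℂ K) hy hi'' fun b hb => hThr.1 b hb
    obtain ⟨k'', hk''⟩ := hf y
    have h4 : ∀ b ∈ Y.B k, ι b ∈ y.loc :=
      chart_transfer hy hk'' fun b hb => hv.1 _ (hYC b hb)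
    exact ⟨y.i, isLocalRing_of_dom hy
      (fun c hc => mem_loc_of_int (CC_le_loc h3 h4) (mem_CN.1 hc)) hv⟩

end Pool.Agent.Helper20.FD
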