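import Pool.Agent.Helper20.FD.OnOf

/-!
# Iterated derivatives with values in the powers of a `ℚ`-Cartier canonical divisor
-/

set_option autoImplicit false

namespace Pool.Agent.Helper20.FD

open Pool.Agent.H436R3.Fol Pool.Agent.W497.Mld Pool.Agent.Helper81_gap MvPolynomial

variable {K : Type} [Field K] [Algebra ℂ K]

/-- The iterated derivatives `θ^k D_θ^k (f)`, where `θ^N = g⁻¹` and `D_θ = θ⁻¹ D`. -/
noncomputable def seqE (D : Derivation ℂ K K) (g : K) (N : ℕ) (f : K) : ℕ → K
  | 0 => f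
  | k + 1 => D (seqE D g N f k) +
      algebraMap ℂ K ((k : ℂ) / N) * (D g / g) * seqE D g N f k

theorem logDer_add {D : Derivation ℂ K K} {f g : K} (hf : f ≠ 0) (hg : g ≠ 0) :
    D (f * g) / (f * g) = D f / f + D g / g := logDer_mul hf hg

/-- The iterated derivatives are sections of the multiples of the canonical divisor. -/
theorem reg_seqE {u : DVal K} {D : Derivation ℂ K K} {g α f : K} {N : ℕ} (hα : α ≠ 0)
    (hD : ∀ h, u.Reg h → u.Reg (α * D h)) (hg : g ≠ 0) (hN : 0 < N)
    (hgα : u.ord g = N * u.ord α) (hf : u.Reg f) (k : ℕ) : u.Reg (α ^ k * seqE D g N f k) := by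
  set γ := g * (α ^ N)⁻¹ with hγ
  have hαN : α ^ N ≠ 0 := pow_ne_zero _ hα
  have hγ0 : γ ≠ 0 := mul_ne_zero hg (inv_ne_zero hαN)
  have hγ1 : u.ord γ = 0 := by
    rw [hγ, u.map_mul _ _ hg (inv_ne_zero hαN), u.ord_inv hαN, u.ord_pow hα, hgα]
    ring
  have hgg : g = α ^ N * γ := by
    rw [hγ]
    field_simp
  have hDg : D g / g = N * (D α / α) + D γ / γ := by
    rw [hgg, logDer_mul hαN hγ0]
    have := logDer_zpow (D := D) hα (N : ℤ)
    rw [zpow_natCast] at this
    rw [this, Int.cast_natCast]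
  have hDγ : u.Reg (α * (D γ / γ)) := by
    have h1 : α * (D γ / γ) = (α * D γ) * γ⁻¹ := by
      rw [div_eq_mul_inv]
      ring
    rw [h1]
    exact u.reg_mul (hD _ (Or.inr hγ1.ge)) (u.reg_inv hγ0 hγ1)
  induction k with
  | zero => rw [pow_zero, one_mul]; exact hf
  | succ k ih =>
    set e := α ^ k * seqE D g N f k with he
    have hE : seqE D g N f k = e * (α ^ k)⁻¹ := by
      rw [he]
      field_simp
    have hDe : D e = k * (D α / α) * e + α ^ k * D (seqE D g N f k) := by
      rw [he, Derivation.leibniz, smul_eq_mul, smul_eq_mul]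
      by_cases hk : α ^ k = 0
      · exact absurd hk (pow_ne_zero _ hα)
      have h1 := logDer_zpow (D := D) hα (k : ℤ)
      rw [zpow_natCast, div_eq_iff hk] at h1
      rw [h1, Int.cast_natCast]
      ring
    have key : α ^ (k + 1) * seqE D g N f (k + 1) =
        α * D e + algebraMap ℂ K ((k : ℂ) / N) * (α * (D γ / γ)) * e := by
      have hNk : algebraMap ℂ K ((k : ℂ) / N) * N = k := by
        have hN' : (N : ℂ) ≠ 0 := by exact_mod_cast hN.ne'
        have h2 : (N : K) = algebraMap ℂ K (N : ℂ) := by rw [map_natCast]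
        rw [h2, ← map_mul, div_mul_cancel₀ _ hN', map_natCast]
      rw [seqE, hDe, hDg]
      have h3 : α ^ (k + 1) * (D (seqE D g N f k) +
          algebraMap ℂ K ((k : ℂ) / N) * (N * (D α / α) + D γ / γ) * seqE D g N f k) =
          α * (α ^ k * D (seqE D g N f k)) + (algebraMap ℂ K ((k : ℂ) / N) * N) * (α * (D α / α)) *
            (α ^ k * seqE D g N f k) + algebraMap ℂ K ((k : ℂ) / N) * (α * (D γ / γ)) *
            (α ^ k * seqE D g N f k) := by
        rw [pow_succ]
        ring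
      rw [h3, hNk, ← he]
      ring
    rw [key]
    exact u.reg_add (hD _ ih) (u.reg_mul (u.reg_mul (u.reg_const _) hDγ) ih)

theorem reg_pow' {u : DVal K} {f : K} (hf : u.Reg f) (n : ℕ) : u.Reg (f ^ n) := by
  induction n with
  | zero => rw [pow_zero]; exact u.reg_one
  | succ n ih => rw [pow_succ]; exact u.reg_mul ih hf

theorem reg_seqE_pow {u : DVal K} {D : Derivation ℂ K K} {g α f : K} {N : ℕ} (hα : α ≠ 0)
    (hD : ∀ h, u.Reg h → u.Reg (α * D h)) (hg : g ≠ 0) (hN : 0 < N)
    (hgα : u.ord g = N * u.ord α) (hf : u.Reg f) (k : ℕ) :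
    u.Reg (seqE D g N f k ^ N * g ^ k) := by
  have h1 := reg_seqE hα hD hg hN hgα hf k
  have hαN : α ^ N ≠ 0 := pow_ne_zero _ hα
  have hγ0 : g * (α ^ N)⁻¹ ≠ 0 := mul_ne_zero hg (inv_ne_zero hαN)
  have hγ1 : u.ord (g * (α ^ N)⁻¹) = 0 := by
    rw [u.map_mul _ _ hg (inv_ne_zero hαN), u.ord_inv hαN, u.ord_pow hα, hgα]
    ring
  have h2 : seqE D g N f k ^ N * g ^ k =
      (α ^ k * seqE D g N f k) ^ N * (g * (α ^ N)⁻¹) ^ k := by
    rw [mul_pow, mul_pow, inv_pow, ← pow_mul, ← pow_mul, mul_comm N k]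
    have : α ^ (k * N) ≠ 0 := pow_ne_zero _ hα
    field_simp
  rw [h2]
  exact u.reg_mul (reg_pow' h1 _) (reg_pow' (Or.inr hγ1.ge) _)

/-- The order of the `k`-th iterated derivative, corrected by the local equation. -/
def rho (n a b : ℤ) (N k : ℕ) : ℚ := n - k * (a + 1 - b / N)

theorem pos_mul_right {v : DVal K} {f g : K} (hf : v.Pos f) (hg : v.Reg g) : v.Pos (f * g) := by
  rw [mul_comm]
  exact v.pos_mul_left hg hf

theorem reg_of_pos {v : DVal K} {f : K} (h : v.Pos f) : v.Reg f := by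
  rcases h with h | h
  · exact Or.inl h
  · exact Or.inr h.le

theorem unit_of_pos_sub {v : DVal K} {e : K} {c : ℂ} (hc : c ≠ 0)
    (h : v.Pos (e - algebraMap ℂ K c)) : e ≠ 0 ∧ v.ord e = 0 := by
  have h1 : v.Reg e := by
    have := v.reg_add (reg_of_pos h) (v.reg_const c)
    rwa [sub_add_cancel] at this
  refine ord_of_reg_not_pos h1 fun h2 => ?_
  have h3 : v.Pos (algebraMap ℂ K c) := by
    have h4 := v.pos_add h2 (v.pos_mul_left (v.reg_neg v.reg_one) h)
    have h5 : e + -1 * (e - algebraMap ℂ K c) = algebraMap ℂ K c := by ring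
    rwa [h5] at h4
  rcases h3 with h3 | h3
  · exact hc ((map_eq_zero _).1 h3)
  · rw [v.const c hc] at h3
    exact lt_irrefl _ h3

/-- The leading terms of the iterated derivatives at a divisor which is not invariant. -/
theorem lead_seqE {v : DVal K} {D : Derivation ℂ K K} {g α f t : K} {N : ℕ} {a : ℤ}
    (hα : α ≠ 0) (hαa : v.ord α = a) (hD : ∀ h, v.Reg h → v.Reg (α * D h)) (hg : g ≠ 0)
    (hN : 0 < N) (ht : t ≠ 0) (ht1 : v.ord t = 1) (hDt : D t ≠ 0) (hDt' : v.ord (α * D t) = 0)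
    (hf : f ≠ 0) (k : ℕ) (hk : ∀ l < k, rho (v.ord f) a (v.ord g) N l ≠ 0) :
    v.Pos (seqE D g N f k / (f * (D t / t) ^ k) -
      algebraMap ℂ K (∏ l ∈ Finset.range k, (rho (v.ord f) a (v.ord g) N l : ℂ))) := by
  set lam := D t / t with hlam
  have hlam0 : lam ≠ 0 := div_ne_zero hDt ht
  have hlam1 : v.ord lam = -a - 1 := by
    rw [hlam, v.ord_div hDt ht, ht1]
    rw [v.map_mul _ _ hα hDt, hαa] at hDt'
    omega
  have hpres : Preserves v (α • D) := fun h hh => by
    rw [Derivation.smul_apply, smul_eq_mul]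
    exact hD h hh
  have hlog : ∀ h, h ≠ 0 → ∃ x, v.Reg x ∧ D h / h = v.ord h * lam + α⁻¹ * x := by
    intro h hh
    have h1 := logDer_sub v hpres ht ht1 hh
    refine ⟨_, h1, ?_⟩
    rw [Derivation.smul_apply, Derivation.smul_apply, smul_eq_mul, smul_eq_mul, hlam]
    field_simp
    ring
  induction k with
  | zero =>
    left
    rw [seqE, pow_zero, mul_one, div_self hf, Finset.range_zero, Finset.prod_empty, map_one,
      sub_self]
  | succ k ih =>
    have ih' := ih fun l hl => hk l (by omega)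
    set e := seqE D g N f k / (f * lam ^ k) with he
    set c : ℂ := ∏ l ∈ Finset.range k, (rho (v.ord f) a (v.ord g) N l : ℂ) with hc
    have hc0 : c ≠ 0 := by
      rw [hc, Finset.prod_ne_zero_iff]
      intro l hl
      exact_mod_cast hk l (by have := Finset.mem_range.1 hl; omega)
    obtain ⟨he0, he1⟩ := unit_of_pos_sub hc0 ih'
    have hlk : lam ^ k ≠ 0 := pow_ne_zero _ hlam0
    have hE : seqE D g N f k = e * (f * lam ^ k) := by
      rw [he]
      field_simp
    have hE0 : seqE D g N f k ≠ 0 := by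
      rw [hE]
      exact mul_ne_zero he0 (mul_ne_zero hf hlk)
    have hE1 : v.ord (seqE D g N f k) = v.ord f + k * (-a - 1) := by
      rw [hE, v.map_mul _ _ he0 (mul_ne_zero hf hlk), v.map_mul _ _ hf hlk, v.ord_pow hlam0,
        hlam1, he1, zero_add]
    obtain ⟨x, hx, hx'⟩ := hlog _ hE0
    obtain ⟨y, hy, hy'⟩ := hlog g hg
    set rk := rho (v.ord f) a (v.ord g) N k with hrk
    set z := (α * lam)⁻¹ * (x + algebraMap ℂ K ((k : ℂ) / N) * y) with hz
    have hzpos : v.Pos z := by
      have h1 : α * lam ≠ 0 := mul_ne_zero hα hlam0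
      have h2 : v.Reg (x + algebraMap ℂ K ((k : ℂ) / N) * y) :=
        v.reg_add hx (v.reg_mul (v.reg_const _) hy)
      refine pos_mul_right (Or.inr ?_) h2
      rw [v.ord_inv h1, v.map_mul _ _ hα hlam0, hαa, hlam1]
      omega
    have hN' : (N : ℂ) ≠ 0 := by exact_mod_cast hN.ne'
    have hrk' : algebraMap ℂ K (rk : ℂ) = ((v.ord (seqE D g N f k) : ℤ) : K) +
        algebraMap ℂ K ((k : ℂ) / N) * ((v.ord g : ℤ) : K) := by
      have h1 : ∀ n : ℤ, (n : K) = algebraMap ℂ K (n : ℂ) := fun n => by rw [map_intCast]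
      rw [hE1, h1, h1, ← map_mul, ← map_add]
      congr 1
      rw [hrk, rho]
      push_cast
      field_simp
      ring
    have hq : seqE D g N f (k + 1) = seqE D g N f k * (lam * (algebraMap ℂ K (rk : ℂ) + z)) := by
      have h1 : D (seqE D g N f k) =
          seqE D g N f k * ((v.ord (seqE D g N f k) : ℤ) * lam + α⁻¹ * x) := by
        rw [← hx']
        field_simp
      rw [seqE, h1, hy', hrk', hz]
      field_simp
      ring
    have hfin : seqE D g N f (k + 1) / (f * lam ^ (k + 1)) - algebraMap ℂ K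
        (∏ l ∈ Finset.range (k + 1), (rho (v.ord f) a (v.ord g) N l : ℂ)) =
        (e - algebraMap ℂ K c) * algebraMap ℂ K (rk : ℂ) + z * e := by
      rw [Finset.prod_range_succ, ← hc, ← hrk, map_mul, hq, he, pow_succ]
      field_simp
      ring
    rw [hfin]
    exact v.pos_add (pos_mul_right ih' (v.reg_const _)) (pos_mul_right hzpos (Or.inr he1.ge))

end Pool.Agent.Helper20.FD
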