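import Pool.Agent.Helper20.FD.Geo2

/-!
# The main theorem
-/

set_option autoImplicit false

namespace Pool.Agent.Helper20.FD

open Pool.Agent.H436R3.Fol Pool.Agent.H436R3.Can Pool.Agent.Helper81_gap

variable {K L : Type} [Field K] [Algebra ℂ K] [Field L] [Algebra ℂ L] {X X' : Variety K}
  {Y : Variety L} {ι : L →ₐ[ℂ] K}

/-- The vector fields in `F` which map the coordinate ring of `X` near `x` to the ideal of `v` do
so on the graph. -/
theorem pos_on_CC {r : ℕ} {F : Foliation K r} (hF : Induces ι F) {x : Point X} {k : Fin Y.m}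
    {v : DVal K} (hv : ∀ c ∈ CC x ι k, v.Reg c) {D : Derivation ℂ K K} (hD : D ∈ F.space)
    (h : ∀ s ∈ X.B x.i, v.Pos (D s)) : ∀ c ∈ CC x ι k, v.Pos (D c) := by
  let T : Subalgebra ℂ K :=
    { carrier := {c | v.Reg c ∧ v.Pos (D c)}
      mul_mem' := fun {a b} ha hb => by
        refine ⟨v.reg_mul ha.1 hb.1, ?_⟩
        rw [Derivation.leibniz, smul_eq_mul, smul_eq_mul]
        exact v.pos_add (v.pos_mul_left ha.1 hb.2) (v.pos_mul_left hb.1 ha.2)
      add_mem' := fun {a b} ha hb => by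
        refine ⟨v.reg_add ha.1 hb.1, ?_⟩
        rw [map_add]
        exact v.pos_add ha.2 hb.2
      algebraMap_mem' := fun c => ⟨v.reg_const c, by
        rw [Derivation.map_algebraMap]
        exact Or.inl rfl⟩ }
  have hT : CC x ι k ≤ T := by
    refine sup_le (fun s hs => ⟨hv s ((le_sup_left : X.B x.i ≤ _) hs), h s hs⟩) ?_
    rintro _ ⟨b, hb, rfl⟩
    exact ⟨hv _ ((le_sup_right : (Y.B k).map ι ≤ _) ⟨b, hb, rfl⟩), Or.inl ((hF D).1 hD b)⟩
  exact fun c hc => (hT hc).2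

/-- The rational map is regular at every point. -/
theorem main {r : ℕ} {F : Foliation K r} {Δ : EffQDiv X} (hX : IsQFactorial X)
    (hπ : IsProperBirational X' X) (hf : IsMorphismTo X' Y ι) (hF : Induces ι F)
    (hΔ : DiscrepanciesGT X X' F Δ) : IsMorphismTo X Y ι := by
  intro x
  by_contra hx
  obtain ⟨k, v, hThr, hnot, hon, hv⟩ := exists_exceptional hX hπ hf x hx
  obtain ⟨N₀, g₀, hloc, hdisc⟩ := hΔ x
  obtain ⟨n, hn, hlt⟩ := hdisc v hon hnot hThr
  obtain ⟨N, g, hN, hg, hu, hle⟩ := exists_eq_of_qfac hX x hloc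
  have hCr : ∀ c ∈ CC x ι k, v.Reg c := fun c hc => hv.1 c (CC_le_CN hc)
  have h1 := core (X.fg x.i) (X.frac x.i) (X.normal x.i) (C := CC x ι k)
    (fun h => hnot ⟨_, h⟩) hg hN
    (fun w hw hwP => hu w ⟨hw, hw.1, fun f hf => hThr.2 f (hwP f f.2 hf)⟩)
    le_sup_left hCr (CN_fg x k) hv (fun D hD _ h => pos_on_CC hF hCr hD h) hn
  have h2 := hle v hThr
  linarith

end Pool.Agent.Helper20.FD
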