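import Pool.Agent.Helper81_gap.Res
import Pool.Agent.Helper20.FD.Defs

/-!
# The residue field of a discrete valuation, and derivations
-/

set_option autoImplicit false

namespace Pool.Agent.Helper20.FD

open Pool.Agent.H436R3.Fol Pool.Agent.W497.Mld Pool.Agent.Helper81_gap

/-! ### Derivations vanish on elements algebraic over the constants -/

section

variable {κ : Type} [Field κ] [Algebra ℂ κ]

/-- The field of constants of a derivation. -/
def constF (D : Derivation ℂ κ κ) : Subfield κ where
  carrier := {x | D x = 0}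
  mul_mem' := fun {a b} ha hb => by
    change D (a * b) = 0
    rw [Derivation.leibniz, show D a = 0 from ha, show D b = 0 from hb, smul_zero, smul_zero,
      add_zero]
  one_mem' := D.map_one_eq_zero
  add_mem' := fun {a b} ha hb => by
    change D (a + b) = 0
    rw [map_add, show D a = 0 from ha, show D b = 0 from hb, add_zero]
  zero_mem' := map_zero D
  neg_mem' := fun {a} ha => by
    change D (-a) = 0
    rw [map_neg, show D a = 0 from ha, neg_zero]
  inv_mem' := fun a ha => by
    change D a⁻¹ = 0
    rw [Derivation.leibniz_inv, show D a = 0 from ha, smul_zero]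

theorem mem_constF {D : Derivation ℂ κ κ} {x : κ} : x ∈ constF D ↔ D x = 0 := Iff.rfl

theorem der_zero_of_alg (D : Derivation ℂ κ κ) {x : κ} (hx : IsAlgebraic (constF D) x) :
    D x = 0 := by
  let D0 : Derivation (constF D) κ κ :=
    Derivation.mk'
      { toFun := D
        map_add' := fun a b => map_add D a b
        map_smul' := fun s a => by
          change D ((s : κ) * a) = (s : κ) * D a
          rw [Derivation.leibniz, show D (s : κ) = 0 from s.2, smul_zero, add_zero, smul_eq_mul] }
      (fun a b => D.leibniz a b)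
  have h0 : ∀ y, D0 y = D y := fun y => rfl
  have hint : IsIntegral (constF D) x := hx.isIntegral
  have h1 := D0.map_aeval (minpoly (constF D) x) x
  rw [minpoly.aeval, map_zero] at h1
  have hch : CharZero (constF D) := by
    have : CharZero κ := charZero_of_injective_algebraMap (algebraMap ℂ κ).injective
    exact ⟨fun a b h => by
      have h2 := congrArg (Subtype.val : constF D → κ) h
      push_cast at h2
      exact_mod_cast h2⟩
  have hsep := (minpoly.irreducible hint).separable
  have h2 := hsep.aeval_derivative_ne_zero (minpoly.aeval (constF D) x)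
  rw [smul_eq_mul] at h1
  rw [← h0]
  exact (mul_eq_zero.1 h1.symm).resolve_left h2

end

/-! ### The residue field -/

variable {K : Type} [Field K] [Algebra ℂ K] (v : DVal K)

/-- The maximal ideal of the valuation ring. -/
def mI : Ideal (OA v) where
  carrier := {s | v.Pos (s : K)}
  zero_mem' := Or.inl rfl
  add_mem' := fun ha hb => v.pos_add ha hb
  smul_mem' := fun a _ hb => v.pos_mul_left a.2 hb

variable {v}

theorem mem_mI {s : OA v} : s ∈ mI v ↔ v.Pos (s : K) := Iff.rfl

theorem ord_of_reg_not_pos {f : K} (h : v.Reg f) (h' : ¬ v.Pos f) : f ≠ 0 ∧ v.ord f = 0 := by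
  have h0 : f ≠ 0 := fun h0 => h' (Or.inl h0)
  refine ⟨h0, ?_⟩
  have h1 := v.ord_nonneg h0 h
  by_contra h2
  exact h' (Or.inr (by omega))

theorem not_pos_of_ord {f : K} (h0 : f ≠ 0) (h : v.ord f = 0) : ¬ v.Pos f := by
  rintro (h1 | h1)
  · exact h0 h1
  · omega

instance mI_max : (mI v).IsMaximal := by
  refine Ideal.isMaximal_iff.2 ⟨?_, ?_⟩
  · intro h
    rcases (h : v.Pos ((1 : OA v) : K)) with h | h
    · exact one_ne_zero h
    · rw [OneMemClass.coe_one, v.ord_one] at h
      exact lt_irrefl _ h
  · intro J x _ hx hxJ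
    obtain ⟨h0, h1⟩ := ord_of_reg_not_pos x.2 hx
    have h2 : (⟨(x : K)⁻¹, v.reg_inv h0 h1⟩ : OA v) * x = 1 :=
      Subtype.ext (inv_mul_cancel₀ h0)
    rw [← h2]
    exact J.mul_mem_left _ hxJ

variable (v) in
/-- The residue field. -/
abbrev Kap : Type := OA v ⧸ mI v

noncomputable instance : Field (Kap v) := Ideal.Quotient.field (mI v)

variable (v) in
/-- The residue map. -/
noncomputable abbrev rs : OA v →ₐ[ℂ] Kap v := Ideal.Quotient.mkₐ ℂ (mI v)

theorem rs_eq_zero {s : OA v} : rs v s = 0 ↔ v.Pos (s : K) := by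
  change Ideal.Quotient.mk (mI v) s = 0 ↔ _
  rw [Ideal.Quotient.eq_zero_iff_mem, mem_mI]

theorem rs_surj : Function.Surjective (rs v) := Ideal.Quotient.mkₐ_surjective ℂ (mI v)

theorem rs_eq {s t : OA v} : rs v s = rs v t ↔ v.Pos ((s : K) - t) := by
  rw [← sub_eq_zero, ← map_sub, rs_eq_zero]
  rfl

/-- The restriction of a derivation to the valuation ring. -/
def derO {D : Derivation ℂ K K} (hD : Preserves v D) : Derivation ℂ (OA v) (OA v) :=
  Derivation.mk'
    { toFun := fun f => ⟨D f, hD _ f.2⟩
      map_add' := fun a b => Subtype.ext (by push_cast; exact map_add D _ _)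
      map_smul' := fun c a => Subtype.ext (by
        change D (c • (a : K)) = c • D (a : K)
        exact D.map_smul c _) }
    (fun a b => Subtype.ext (by
      change D ((a : K) * b) = (a : K) * D b + (b : K) * D a
      rw [Derivation.leibniz, smul_eq_mul, smul_eq_mul]))

theorem derO_coe {D : Derivation ℂ K K} (hD : Preserves v D) (f : OA v) :
    (derO hD f : K) = D f := rfl

theorem derR_aux {D : Derivation ℂ K K} (hD : Preserves v D)
    (hI : ∀ f, v.Pos f → v.Pos (D f)) (x : OA v) (hx : rs v x = 0) : rs v (derO hD x) = 0 := by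
  rw [rs_eq_zero] at hx ⊢
  exact hI _ hx

/-- The derivation of the residue field. -/
noncomputable def derR {D : Derivation ℂ K K} (hD : Preserves v D)
    (hI : ∀ f, v.Pos f → v.Pos (D f)) : Derivation ℂ (Kap v) (Kap v) :=
  Derivation.liftOfSurjective (rs_surj (v := v)) (derR_aux hD hI)

theorem derR_rs {D : Derivation ℂ K K} (hD : Preserves v D)
    (hI : ∀ f, v.Pos f → v.Pos (D f)) (f : OA v) : derR hD hI (rs v f) = rs v (derO hD f) :=
  Derivation.liftOfSurjective_apply _ (derR_aux hD hI) _

/-- If a derivation preserves the valuation ring and its ideal, and maps a subalgebra `C` to the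
ideal, and the valuation ring is a localisation of the integral closure of `C`, then it maps the
valuation ring to the ideal. -/
theorem der_pos_of_alg {D : Derivation ℂ K K} (hD : Preserves v D)
    (hI : ∀ f, v.Pos f → v.Pos (D f)) {C : Subalgebra ℂ K} (hC : ∀ c ∈ C, v.Reg c)
    (hCD : ∀ c ∈ C, v.Pos (D c))
    (hloc : IsLocalRing' ((integralClosure C K).restrictScalars ℂ) v) {f : K} (hf : v.Reg f) :
    v.Pos (D f) := by
  set Db := derR hD hI with hDb
  have key : ∀ c : OA v, IsIntegral C (c : K) → Db (rs v c) = 0 := by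
    intro c hc
    apply der_zero_of_alg
    obtain ⟨p, hp, h0⟩ := hc
    let ψ : C →+* constF Db :=
      { toFun := fun s => ⟨rs v ⟨(s : K), hC _ s.2⟩, by
          rw [mem_constF, hDb, derR_rs, rs_eq_zero]
          exact hCD _ s.2⟩
        map_one' := Subtype.ext (map_one (rs v))
        map_mul' := fun a b => Subtype.ext (map_mul (rs v) ⟨(a : K), hC _ a.2⟩ ⟨(b : K), hC _ b.2⟩)
        map_zero' := Subtype.ext (map_zero (rs v))
        map_add' := fun a b =>
          Subtype.ext (map_add (rs v) ⟨(a : K), hC _ a.2⟩ ⟨(b : K), hC _ b.2⟩) }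
    let φ : C →+* OA v :=
      { toFun := fun s => ⟨(s : K), hC _ s.2⟩
        map_one' := rfl
        map_mul' := fun a b => rfl
        map_zero' := rfl
        map_add' := fun a b => rfl }
    refine (IsIntegral.isAlgebraic ?_)
    refine ⟨p.map ψ, hp.map _, ?_⟩
    rw [Polynomial.eval₂_map]
    have h1 : (algebraMap (constF Db) (Kap v)).comp ψ = (rs v : OA v →+* Kap v).comp φ := rfl
    have h4 : rs v (Polynomial.eval₂ φ c p) =
        Polynomial.eval₂ ((rs v : OA v →+* Kap v).comp φ) (rs v c) p :=
      Polynomial.hom_eval₂ p φ (rs v : OA v →+* Kap v) c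
    rw [h1, ← h4]
    have h2 : Polynomial.eval₂ φ c p = 0 := by
      apply Subtype.val_injective (p := fun x => x ∈ OA v)
      have h3 : (OA v).subtype (Polynomial.eval₂ φ c p) =
          Polynomial.eval₂ ((OA v).subtype.comp φ) ((OA v).subtype c) p :=
        Polynomial.hom_eval₂ _ _ _ _
      exact h3.trans h0
    rw [h2, map_zero]
  obtain ⟨a, b, ha, hb, hb0, hob, hab⟩ := hloc.2 f hf
  have har := hloc.1 a ha
  have hbr := hloc.1 b hb
  let a' : OA v := ⟨a, har⟩
  let b' : OA v := ⟨b, hbr⟩
  let f' : OA v := ⟨f, hf⟩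
  have h1 : Db (rs v a') = 0 := key a' ha
  have h2 : Db (rs v b') = 0 := key b' hb
  have h3 : rs v f' * rs v b' = rs v a' := by
    rw [← map_mul]
    congr 1
    exact Subtype.ext hab
  have h4 : rs v b' ≠ 0 := fun h => not_pos_of_ord hb0 hob (rs_eq_zero.1 h)
  have h5 : Db (rs v f') = 0 := by
    have h6 := Db.leibniz (rs v f') (rs v b')
    rw [h3, h1, h2] at h6
    have h7 : rs v b' * Db (rs v f') = 0 := by
      have h8 : rs v f' • (0 : Kap v) = 0 := mul_zero _
      rw [h8, zero_add] at h6
      exact h6.symm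
    exact (mul_eq_zero.1 h7).resolve_left h4
  rw [hDb, derR_rs, rs_eq_zero] at h5
  exact h5

end Pool.Agent.Helper20.FD
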