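import Pool.Agent.Helper81_gap.Frame
import Pool.Agent.TH202.PrimeOf
import Pool.Agent.Helper20.FD.Res

/-!
# A valuation whose residue field is algebraic over the one of its centre is divisorial
-/

set_option autoImplicit false

namespace Pool.Agent.Helper20.FD

open Pool.Agent.H436R3.Fol Pool.Agent.W497.Mld Pool.Agent.Helper81_gap MvPolynomial

variable {K : Type} [Field K] [Algebra ℂ K] {S : Subalgebra ℂ K} {v : DVal K}

/-- Enough functions with independent residues on the centre: the valuation is the one of a prime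
divisor. -/
theorem divisor_of_indep (hfg : S.FG)
    (hfrac : ∀ f : K, ∃ a b : K, a ∈ S ∧ b ∈ S ∧ b ≠ 0 ∧ f * b = a)
    (hn : ∀ f : K, IsIntegral S f → f ∈ S) {m : ℕ}
    (htr : Algebra.trdeg ℂ K = ((m + 1 : ℕ) : Cardinal)) (hv : ∀ f ∈ S, v.Reg f)
    (z : Fin m → K) (hz : ∀ i, z i ∈ S)
    (hres : ∀ q : MvPolynomial (Fin m) ℂ, v.Pos (aeval z q) → q = 0) : IsLocalRing' S v := by
  have hzr : ∀ i, v.Reg (z i) := fun i => hv _ (hz i)
  obtain ⟨π, hπ, hπ1⟩ := v.surj
  obtain ⟨u, t, hu, ht, ht0, hut⟩ := hfrac π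
  have hu0 : u ≠ 0 := by rw [← hut]; exact mul_ne_zero hπ ht0
  have hup : 0 < v.ord u := by
    rw [← hut, v.map_mul _ _ hπ ht0, hπ1]
    have := v.ord_nonneg ht0 (hv t ht)
    omega
  set p := Pool.Agent.TH126.C8_OVER.centre S v hv with hp
  have hpp : p.IsPrime := Pool.Agent.TH126.C8_OVER.centre_prime S v hv
  obtain ⟨w, hw, hwx, hwu⟩ : ∃ w : DVal K, IsLocalRing' S w ∧
      (∀ s : S, w.Pos (s : K) → s ∈ p) ∧ ¬ w.Reg u⁻¹ := by
    by_contra hc
    push Not at hc
    obtain ⟨s, hs, hsu⟩ := Pool.Agent.TH670.C8_HARTP.hartogs_local hfg hfrac hn p hpp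
      (F := u⁻¹) fun w hw hwx => hc w hw hwx
    have h1 := hv _ hsu
    have hs0 : (s : K) ≠ 0 := fun h0 => hs (Or.inl h0)
    have h2 := h1.resolve_left (mul_ne_zero hs0 (inv_ne_zero hu0))
    rw [v.map_mul _ _ hs0 (inv_ne_zero hu0), v.ord_inv hu0] at h2
    have h3 : ¬ 0 < v.ord (s : K) := fun h => hs (Or.inr h)
    omega
  have hwupos : w.Pos u := by
    right
    by_contra hc
    apply hwu
    right
    rw [w.ord_inv hu0]
    omega
  by_cases hkey : ∀ f ∈ S, v.Pos f → w.Pos f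
  · have hag : ∀ {f : K}, f ≠ 0 → w.ord f = v.ord f := fun hf => agree_of_key hw hv hkey hf
    refine ⟨hv, fun f hf => ?_⟩
    have hf' : w.Reg f := by
      by_cases h0 : f = 0
      · exact Or.inl h0
      · right
        rw [hag h0]
        exact hf.resolve_left h0
    obtain ⟨p, q, hp, hq, hq0, hq1, hpq⟩ := hw.2 f hf'
    exact ⟨p, q, hp, hq, hq0, by rw [← hag hq0]; exact hq1, hpq⟩
  exfalso
  push Not at hkey
  obtain ⟨h, hh, hvh, hwh⟩ := hkey
  have hh0 : h ≠ 0 := fun h0 => hwh (Or.inl h0)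
  have hvh' : 0 < v.ord h := hvh.resolve_left hh0
  have hwh0 : w.ord h = 0 := by
    have h1 := w.ord_nonneg hh0 (hw.1 h hh)
    have h2 : ¬ 0 < w.ord h := fun h2 => hwh (Or.inr h2)
    omega
  have hbas := cons_basis htr hh0 hvh' hzr hres
  have halg := hbas.isAlgebraic
  set S3 := Algebra.adjoin ℂ (Set.range (Fin.cons h z : Fin (m + 1) → K)) with hS3
  have hS3S : S3 ≤ S := by
    rw [hS3, Algebra.adjoin_le_iff]
    rintro _ ⟨j, rfl⟩
    refine Fin.cases ?_ (fun i => ?_) j
    · rw [Fin.cons_zero]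
      exact hh
    · rw [Fin.cons_succ]
      exact hz i
  have hS3w : ∀ q : S3, w.Reg (algebraMap S3 K q) := fun q => hw.1 _ (hS3S q.2)
  obtain ⟨P, hP, hPu⟩ := halg.1 u
  obtain ⟨q3, hq3, hq3w⟩ := Pool.Agent.TH202.res_drop w (algebraMap S3 K) hS3w hu0 hwupos hP hPu
  obtain ⟨Q, hQ⟩ : ∃ Q : MvPolynomial (Fin (m + 1)) ℂ,
      aeval (Fin.cons h z : Fin (m + 1) → K) Q = (q3 : K) := by
    have h1 : ∀ q ∈ S3, ∃ Q : MvPolynomial (Fin (m + 1)) ℂ,
        aeval (Fin.cons h z : Fin (m + 1) → K) Q = q := by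
      intro q hq
      rw [hS3, Algebra.adjoin_range_eq_range_aeval] at hq
      exact hq
    exact h1 _ q3.2
  have hq30 : (q3 : K) ≠ 0 := fun h0 => hq3 (Subtype.ext h0)
  have hQ0 : Q ≠ 0 := by
    rintro rfl
    rw [map_zero] at hQ
    exact hq30 hQ.symm
  obtain ⟨k, P', hk, hP'0, hP'v⟩ := exists_pow_mul hvh' hzr hres Q hQ0
  set y := aeval (Fin.cons h z : Fin (m + 1) → K) P' with hy
  rw [hk, map_mul, map_pow, aeval_X, Fin.cons_zero, ← hy] at hQ
  have hyw : 0 < w.ord y := by
    have h1 := hq3w.resolve_left hq30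
    change 0 < w.ord (q3 : K) at h1
    rw [← hQ, w.map_mul _ _ (pow_ne_zero _ hh0) hP'0, w.ord_pow hh0, hwh0] at h1
    simpa using h1
  have hyS : y ∈ S := by
    apply hS3S
    rw [hS3, Algebra.adjoin_range_eq_range_aeval]
    exact ⟨P', rfl⟩
  have h2 : v.Pos y := hwx ⟨y, hyS⟩ (Or.inr hyw)
  exact not_pos_of_ord hP'0 hP'v h2

/-- If all residues are algebraic over the residues of the functions in `S`, and there are `m`
functions with independent residues, there are such functions in `S`. -/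
theorem exists_indep_of_alg {m : ℕ} (u : Fin m → K)
    (hu : ∀ i, v.Reg (u i)) (hres : ∀ q : MvPolynomial (Fin m) ℂ, v.Pos (aeval u q) → q = 0)
    (halg : ∀ f : OA v, IsAlgebraic (Algebra.adjoin ℂ (rs v '' {x : OA v | (x : K) ∈ S}))
      (rs v f)) :
    ∃ z : Fin m → K, (∀ i, z i ∈ S) ∧
      ∀ q : MvPolynomial (Fin m) ℂ, v.Pos (aeval z q) → q = 0 := by
  classical
  set s : Set (Kap v) := rs v '' {x : OA v | (x : K) ∈ S} with hs
  have h1 : Algebra.IsAlgebraic (Algebra.adjoin ℂ s) (Kap v) := by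
    refine ⟨fun x => ?_⟩
    obtain ⟨f, rfl⟩ := rs_surj x
    exact halg f
  have hfa : FaithfulSMul ℂ (Kap v) :=
    (faithfulSMul_iff_algebraMap_injective _ _).mpr (algebraMap ℂ (Kap v)).injective
  obtain ⟨t, hts, ht⟩ := exists_isTranscendenceBasis_subset (R := ℂ) (A := Kap v) s
  have haeval : ∀ (x : Fin m → OA v) (q : MvPolynomial (Fin m) ℂ),
      rs v (aeval x q) = aeval (fun i => rs v (x i)) q := by
    intro x q
    have h : (rs v).comp (aeval x) = aeval (fun i => rs v (x i)) := by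
      apply MvPolynomial.algHom_ext
      intro i
      simp only [AlgHom.comp_apply, aeval_X]
    exact DFunLike.congr_fun h q
  have haeval2 : ∀ (x : Fin m → OA v) (q : MvPolynomial (Fin m) ℂ),
      ((aeval x q : OA v) : K) = aeval (fun i => (x i : K)) q := by
    intro x q
    have h : (OA v).val.comp (aeval x) = aeval (fun i => (x i : K)) := by
      apply MvPolynomial.algHom_ext
      intro i
      simp only [AlgHom.comp_apply, aeval_X]
      rfl
    exact DFunLike.congr_fun h q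
  have hind : AlgebraicIndependent ℂ fun i => rs v ⟨u i, hu i⟩ := by
    rw [algebraicIndependent_iff]
    intro q hq
    rw [← haeval (fun i => ⟨u i, hu i⟩)] at hq
    rw [rs_eq_zero, haeval2] at hq
    exact hres q hq
  have hcard : (m : Cardinal) ≤ Cardinal.mk t := by
    rw [ht.cardinalMk_eq_trdeg]
    have := hind.cardinalMk_le_trdeg
    simpa using this
  obtain ⟨e⟩ : Nonempty (Fin m ↪ t) := by
    have h2 : Cardinal.mk (Fin m) ≤ Cardinal.mk t := by
      rw [Cardinal.mk_fin]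
      exact hcard
    exact Cardinal.le_def _ _ |>.1 h2
  choose x hx hxe using fun i : Fin m => hts (e i).2
  refine ⟨fun i => (x i : K), hx, fun q hq => ?_⟩
  have hind2 : AlgebraicIndependent ℂ fun i => rs v (x i) := by
    have h3 : (fun i => rs v (x i)) = ((↑) : t → Kap v) ∘ e := funext hxe
    rw [h3]
    exact ht.1.comp e e.injective
  rw [algebraicIndependent_iff] at hind2
  apply hind2
  rw [← haeval, rs_eq_zero, haeval2]
  exact hq

end Pool.Agent.Helper20.FD
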